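import Pool.Agent.AH.Core

/-!
# AH-Conn: second countability, density of `Om`, connectedness

`Idx K d` is countable if `K` is, so the manifold is covered by countably many charts with second
countable domains; `Om` is dense as `{z ≠ 0}` is dense in `E d`, and connected as an image of
`E d` minus `0`.
-/

set_option autoImplicit false

open Set Topology
open scoped Manifold ContDiff

namespace Pool.Agent.AH

variable {K : Subfield ℂ} {τ : ℂ} {d : ℕ}

private theorem countable_poly [Countable K] : Countable (Polynomial K) := by
  have h : Function.Injective (fun (p : Polynomial K) => ((Finsupp.ofSupportFinite p.coeff (by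
      have := p.support.finite_toSet
      refine this.subset ?_
      intro n hn
      rw [Finset.mem_coe, Polynomial.mem_support_iff]
      exact hn)) : ℕ →₀ K)) := by
    intro p q hpq
    ext n
    have h1 := DFunLike.congr_fun hpq n
    exact congrArg Subtype.val h1
  exact h.countable

theorem countable_Idx [Countable K] : Countable (Idx K d) := by
  have := countable_poly (K := K)
  have h : Function.Injective (fun i : Idx K d => ((i.l, i.q) : ℕ × (Fin d → Polynomial K))) := by
    rintro ⟨l, h1, q, h2, h3⟩ ⟨l', h1', q', h2', h3'⟩ h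
    obtain ⟨ha, hb⟩ := Prod.mk.inj h
    cases ha
    cases hb
    rfl
  exact h.countable

private noncomputable def homOm : Om K τ d ≃ₜ (({0}ᶜ : Set (E d)) : Type) where
  toFun p := ⟨pr p.1, p.2⟩
  invFun x := ⟨J0 K τ x.1, by
    rw [J0_ne τ x.2]
    exact x.2⟩
  left_inv := by
    rintro ⟨p, hp⟩
    apply Subtype.ext
    exact (ch0 K τ d).left_inv hp
  right_inv := by
    rintro ⟨x, hx⟩
    apply Subtype.ext
    exact pr_J0 τ hx
  continuous_toFun := by
    refine Continuous.subtype_mk ?_ _
    exact contMDiff_pr.continuous.comp continuous_subtype_val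
  continuous_invFun := by
    refine Continuous.subtype_mk ?_ _
    exact continuousOn_iff_continuous_domRestrict.1 contMDiffOn_J0.continuousOn

theorem secondCountableTopology [Countable K] : SecondCountableTopology (Pt K τ d) := by
  have := countable_Idx (K := K) (d := d)
  let U : Option (Idx K d) → Set (Pt K τ d) := fun o => o.elim (Om K τ d) (fun i => range (J τ i))
  have hU : ∀ o, SecondCountableTopology (U o) := by
    intro o
    cases o with
    | none => exact (homOm (K := K) (τ := τ) (d := d)).secondCountableTopology
    | some i =>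
      exact ((isOpenEmbedding_J (K := K) (τ := τ) i).isEmbedding.toHomeomorph).symm.secondCountableTopology
  have hUo : ∀ o, IsOpen (U o) := by
    intro o
    cases o with
    | none => exact isOpen_Om
    | some i => exact (isOpenEmbedding_J i).isOpen_range
  refine TopologicalSpace.secondCountableTopology_of_countable_cover hUo ?_
  rw [Set.iUnion_eq_univ_iff]
  rintro (⟨x, h⟩ | ⟨i, v⟩)
  · exact ⟨none, mem_Om_reg x h⟩
  · exact ⟨some i, (mem_range_J_new τ i i v).2 rfl⟩

theorem dense_Om : Dense (Om K τ d) := by
  rintro (⟨x, h⟩ | ⟨i, v⟩)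
  · exact subset_closure (mem_Om_reg x h)
  · have h1 : Dense (Prod.fst ⁻¹' ({0}ᶜ : Set ℂ) : Set (E d)) :=
      (dense_compl_singleton (0 : ℂ)).preimage isOpenMap_fst
    have h2 : J τ i ((0 : ℂ), v) ∈ closure (J τ i '' (Prod.fst ⁻¹' ({0}ᶜ : Set ℂ))) :=
      image_closure_subset_closure_image (isOpenEmbedding_J i).continuous
        (mem_image_of_mem _ (h1 _))
    rw [J_zero] at h2
    refine closure_mono ?_ h2
    rintro _ ⟨x, hx, rfl⟩
    have hx' : x.1 ≠ 0 := hx
    rw [J_ne τ i hx']
    exact mem_Om_reg _ _

theorem connectedSpace (hd : 0 < d) : ConnectedSpace (Pt K τ d) := by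
  have hr : 1 < Module.rank ℝ (E d) := by
    have h1 : 1 < Module.finrank ℝ (E d) := by
      rw [Module.finrank_prod, Complex.finrank_real_complex]
      omega
    have h2 := Module.lt_rank_of_lt_finrank h1
    exact_mod_cast h2
  have h3 : IsConnected ({0}ᶜ : Set (E d)) := isConnected_compl_singleton_of_one_lt_rank hr 0
  have h4 : IsConnected (J0 K τ '' ({0}ᶜ : Set (E d))) := h3.image _ contMDiffOn_J0.continuousOn
  have h5 : J0 K τ '' ({0}ᶜ : Set (E d)) = Om K τ d := by
    ext p
    constructor
    · rintro ⟨x, hx, rfl⟩
      rw [J0_ne τ hx]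
      exact mem_Om_reg x hx
    · intro hp
      obtain ⟨x, h, rfl⟩ := (mem_Om_iff p).1 hp
      exact ⟨x, h, J0_ne τ h⟩
  rw [h5] at h4
  have h6 := h4.closure
  rw [dense_Om.closure_eq] at h6
  exact connectedSpace_iff_univ.2 h6

end Pool.Agent.AH
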