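import Pool.Agent.AH.Defs

/-!
# AH-Core: the topology and the atlas of `Pt K τ d`, and the basic API

All later modules use only the statements of this file (and `Defs`).
-/

set_option autoImplicit false

open Set Topology
open scoped Manifold ContDiff

namespace Pool.Agent.AH

variable {K : Subfield ℂ} {τ : ℂ} {d : ℕ}

theorem contDiff_P (τ : ℂ) (i : Idx K d) : ContDiff ℂ (⊤ : WithTop ℕ∞) (P τ i) := by
  rw [contDiff_pi]
  intro j
  exact (Polynomial.contDiff_aeval _ _).add (contDiff_const.mul (contDiff_id.pow _))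

/-- from the coordinates `i` to `E d` -/
noncomputable def toE (τ : ℂ) (i : Idx K d) (x : E d) : E d :=
  (x.1, P τ i x.1 + x.1 ^ (i.l + 1) • x.2)

/-- from `E d` to the coordinates `i` -/
noncomputable def ofE (τ : ℂ) (i : Idx K d) (x : E d) : E d :=
  (x.1, (x.1 ^ (i.l + 1))⁻¹ • (x.2 - P τ i x.1))

theorem contDiff_toE (τ : ℂ) (i : Idx K d) : ContDiff ℂ (⊤ : WithTop ℕ∞) (toE τ i) :=
  contDiff_fst.prodMk (((contDiff_P τ i).comp contDiff_fst).add
    ((contDiff_fst.pow _).smul contDiff_snd))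

theorem contDiffOn_ofE (τ : ℂ) (i : Idx K d) :
    ContDiffOn ℂ (⊤ : WithTop ℕ∞) (ofE τ i) {x | x.1 ≠ 0} := by
  have h1 : ContDiffOn ℂ (⊤ : WithTop ℕ∞) (fun x : E d => (x.1 ^ (i.l + 1))⁻¹) {x | x.1 ≠ 0} :=
    ContDiffOn.inv (contDiff_fst.pow _).contDiffOn (fun x hx => pow_ne_zero _ hx)
  have h2 : ContDiffOn ℂ (⊤ : WithTop ℕ∞) (fun x : E d => x.2 - P τ i x.1) {x | x.1 ≠ 0} :=
    (contDiff_snd.sub ((contDiff_P τ i).comp contDiff_fst)).contDiffOn
  have h3 : ContDiffOn ℂ (⊤ : WithTop ℕ∞)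
      (fun x : E d => (x.1 ^ (i.l + 1))⁻¹ • (x.2 - P τ i x.1)) {x | x.1 ≠ 0} := h1.smul h2
  exact contDiff_fst.contDiffOn.prodMk h3

theorem isOpen_fst_ne : IsOpen {x : E d | x.1 ≠ 0} :=
  isOpen_ne_fun continuous_fst continuous_const

theorem trans_aux (e e' : PartialEquiv (Pt K τ d) (E d))
    (he : e ∈ ({ch0 K τ d} ∪ range (ch τ) : Set (PartialEquiv (Pt K τ d) (E d))))
    (he' : e' ∈ ({ch0 K τ d} ∪ range (ch τ) : Set (PartialEquiv (Pt K τ d) (E d)))) :
    IsOpen (e.symm.trans e').source ∧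
      ContDiffOn ℂ (⊤ : WithTop ℕ∞) (e.symm.trans e') (e.symm.trans e').source := by
  rcases he with he | ⟨i, rfl⟩
  · obtain rfl : e = ch0 K τ d := he
    rcases he' with he' | ⟨j, rfl⟩
    · obtain rfl : e' = ch0 K τ d := he'
      have hs : ((ch0 K τ d).symm.trans (ch0 K τ d)).source = {0}ᶜ := by
        ext x
        constructor
        · intro h
          exact h.1
        · intro h
          refine ⟨h, ?_⟩
          change J0 K τ x ∈ Om K τ d
          rw [J0_ne τ h]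
          exact h
      rw [hs]
      refine ⟨isOpen_compl_singleton, contDiffOn_id.congr fun x hx => ?_⟩
      exact pr_J0 τ hx
    · have hs : ((ch0 K τ d).symm.trans (ch τ j)).source = {x | x.1 ≠ 0} := by
        ext x
        constructor
        · rintro ⟨h1, h2⟩
          change J0 K τ x ∈ range (J τ j) at h2
          have h1' : x ≠ 0 := h1
          rw [J0_ne τ h1', mem_range_J_reg] at h2
          exact h2
        · intro h
          have hx : x ≠ 0 := fun e => h (by rw [e]; rfl)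
          refine ⟨hx, ?_⟩
          change J0 K τ x ∈ range (J τ j)
          rw [J0_ne τ hx, mem_range_J_reg]
          exact h
      rw [hs]
      refine ⟨isOpen_fst_ne, (contDiffOn_ofE τ j).congr fun x hx => ?_⟩
      have hx' : x ≠ 0 := fun e => hx (by rw [e]; rfl)
      change Cf τ j (J0 K τ x) = ofE τ j x
      rw [J0_ne τ hx']
      rfl
  · rcases he' with he' | ⟨j, rfl⟩
    · obtain rfl : e' = ch0 K τ d := he'
      have hs : ((ch τ i).symm.trans (ch0 K τ d)).source = {x | x.1 ≠ 0} := by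
        ext x
        constructor
        · rintro ⟨-, h2⟩
          change J τ i x ∈ Om K τ d at h2
          intro h
          obtain ⟨z, v⟩ := x
          obtain rfl : z = 0 := h
          rw [J_zero] at h2
          exact notMem_Om_new _ _ h2
        · intro h
          refine ⟨mem_univ _, ?_⟩
          change J τ i x ∈ Om K τ d
          rw [J_ne τ i h]
          exact mem_Om_reg _ _
      rw [hs]
      refine ⟨isOpen_fst_ne, (contDiff_toE τ i).contDiffOn.congr fun x hx => ?_⟩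
      change pr (J τ i x) = toE τ i x
      rw [J_ne τ i hx]
      rfl
    · rcases eq_or_ne i j with rfl | hij
      · have hs : ((ch τ i).symm.trans (ch τ i)).source = univ := by
          ext x
          exact ⟨fun _ => mem_univ _, fun _ => ⟨mem_univ _, mem_range_self x⟩⟩
        rw [hs]
        refine ⟨isOpen_univ, contDiffOn_id.congr fun x hx => ?_⟩
        exact Cf_J τ i x
      · have hs : ((ch τ i).symm.trans (ch τ j)).source = {x | x.1 ≠ 0} := by
          ext x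
          constructor
          · rintro ⟨-, h2⟩
            change J τ i x ∈ range (J τ j) at h2
            intro h
            obtain ⟨z, v⟩ := x
            obtain rfl : z = 0 := h
            rw [J_zero, mem_range_J_new] at h2
            exact hij h2
          · intro h
            refine ⟨mem_univ _, ?_⟩
            change J τ i x ∈ range (J τ j)
            rw [J_ne τ i h, mem_range_J_reg]
            exact h
        have hc : ContDiffOn ℂ (⊤ : WithTop ℕ∞) (ofE τ j ∘ toE τ i) {x : E d | x.1 ≠ 0} :=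
          (contDiffOn_ofE τ j).comp (contDiff_toE τ i).contDiffOn (fun x hx => hx)
        rw [hs]
        refine ⟨isOpen_fst_ne, hc.congr fun x hx => ?_⟩
        change Cf τ j (J τ i x) = ofE τ j (toE τ i x)
        rw [J_ne τ i hx]
        rfl

/-- the gluing data -/
noncomputable def core (K : Subfield ℂ) (τ : ℂ) (d : ℕ) : ChartedSpaceCore (E d) (Pt K τ d) where
  atlas := {ch0 K τ d} ∪ range (ch τ)
  chartAt := fun x => match x with
    | Pt.reg _ _ => ch0 K τ d
    | Pt.new i _ => ch τ i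
  mem_chart_source := by
    rintro (⟨x, h⟩ | ⟨i, v⟩)
    · exact mem_Om_reg x h
    · exact (mem_range_J_new τ i i v).2 rfl
  chart_mem_atlas := by
    rintro (x | a)
    · exact Or.inl rfl
    · exact Or.inr (mem_range_self _)
  open_source := fun e e' he he' => (trans_aux e e' he he').1
  continuousOn_toFun := fun e e' he he' => (trans_aux e e' he he').2.continuousOn

noncomputable instance : TopologicalSpace (Pt K τ d) := (core K τ d).toTopologicalSpace

noncomputable instance : ChartedSpace (E d) (Pt K τ d) := (core K τ d).toChartedSpace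

theorem mem_atlas_iff {e : OpenPartialHomeomorph (Pt K τ d) (E d)} (he : e ∈ atlas (E d) (Pt K τ d)) :
    e.toPartialEquiv ∈ ({ch0 K τ d} ∪ range (ch τ) : Set (PartialEquiv (Pt K τ d) (E d))) := by
  have he' : e ∈ ⋃ (e : PartialEquiv (Pt K τ d) (E d)) (he : e ∈ (core K τ d).atlas),
    ({(core K τ d).openPartialHomeomorph e he} : Set (OpenPartialHomeomorph (Pt K τ d) (E d))) := he
  simp only [mem_iUnion, mem_singleton_iff] at he'
  obtain ⟨e0, he0, rfl⟩ := he'
  exact he0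

instance : IsManifold 𝓘(ℂ, E d) (⊤ : WithTop ℕ∞) (Pt K τ d) := by
  apply isManifold_of_contDiffOn
  intro e e' he he'
  have h := (trans_aux e.toPartialEquiv e'.toPartialEquiv (mem_atlas_iff he) (mem_atlas_iff he')).2
  simpa using h

/-- the chart `ch0` as an open partial homeomorphism -/
noncomputable def eh0 (K : Subfield ℂ) (τ : ℂ) (d : ℕ) : OpenPartialHomeomorph (Pt K τ d) (E d) :=
  (core K τ d).openPartialHomeomorph (ch0 K τ d) (Or.inl rfl)

/-- the chart `ch τ i` as an open partial homeomorphism -/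
noncomputable def eh (τ : ℂ) (i : Idx K d) : OpenPartialHomeomorph (Pt K τ d) (E d) :=
  (core K τ d).openPartialHomeomorph (ch τ i) (Or.inr (mem_range_self i))

theorem eh0_mem : eh0 K τ d ∈ atlas (E d) (Pt K τ d) := by
  change eh0 K τ d ∈ ⋃ (e : PartialEquiv (Pt K τ d) (E d)) (he : e ∈ (core K τ d).atlas),
    ({(core K τ d).openPartialHomeomorph e he} : Set (OpenPartialHomeomorph (Pt K τ d) (E d)))
  simp only [mem_iUnion, mem_singleton_iff]
  exact ⟨ch0 K τ d, Or.inl rfl, rfl⟩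

theorem eh_mem (i : Idx K d) : eh τ i ∈ atlas (E d) (Pt K τ d) := by
  change eh τ i ∈ ⋃ (e : PartialEquiv (Pt K τ d) (E d)) (he : e ∈ (core K τ d).atlas),
    ({(core K τ d).openPartialHomeomorph e he} : Set (OpenPartialHomeomorph (Pt K τ d) (E d)))
  simp only [mem_iUnion, mem_singleton_iff]
  exact ⟨ch τ i, Or.inr (mem_range_self i), rfl⟩

theorem isOpenEmbedding_J (i : Idx K d) : IsOpenEmbedding (J τ i) := by
  have h := (eh τ i).symm.to_isOpenEmbedding (show (eh τ i).target = univ from rfl)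
  exact h

theorem isOpen_Om : IsOpen (Om K τ d) := (eh0 K τ d).open_source

theorem contMDiff_J (i : Idx K d) :
    ContMDiff 𝓘(ℂ, E d) 𝓘(ℂ, E d) (⊤ : WithTop ℕ∞) (J τ i) := by
  have h := contMDiffOn_symm_of_mem_maximalAtlas (I := 𝓘(ℂ, E d)) (n := (⊤ : WithTop ℕ∞))
    (IsManifold.subset_maximalAtlas (eh_mem (τ := τ) i))
  exact contMDiffOn_univ.1 h

theorem contMDiffOn_J0 :
    ContMDiffOn 𝓘(ℂ, E d) 𝓘(ℂ, E d) (⊤ : WithTop ℕ∞) (J0 K τ : E d → Pt K τ d) {0}ᶜ :=
  contMDiffOn_symm_of_mem_maximalAtlas (I := 𝓘(ℂ, E d)) (n := (⊤ : WithTop ℕ∞))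
    (IsManifold.subset_maximalAtlas (eh0_mem (K := K) (τ := τ) (d := d)))

theorem contMDiffOn_Cf (i : Idx K d) :
    ContMDiffOn 𝓘(ℂ, E d) 𝓘(ℂ, E d) (⊤ : WithTop ℕ∞) (Cf τ i) (range (J τ i)) :=
  contMDiffOn_of_mem_maximalAtlas (I := 𝓘(ℂ, E d)) (n := (⊤ : WithTop ℕ∞))
    (IsManifold.subset_maximalAtlas (eh_mem (τ := τ) i))

theorem contMDiffOn_pr_Om :
    ContMDiffOn 𝓘(ℂ, E d) 𝓘(ℂ, E d) (⊤ : WithTop ℕ∞) (pr : Pt K τ d → E d) (Om K τ d) :=
  contMDiffOn_of_mem_maximalAtlas (I := 𝓘(ℂ, E d)) (n := (⊤ : WithTop ℕ∞))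
    (IsManifold.subset_maximalAtlas (eh0_mem (K := K) (τ := τ) (d := d)))

theorem P_zero (τ : ℂ) (i : Idx K d) : P τ i 0 = 0 := by
  funext j
  have h1 : i.l ≠ 0 := by
    have := i.two_le
    omega
  obtain ⟨r, hr⟩ := i.dvd j
  change Polynomial.aeval (0 : ℂ) (i.q j) + τ * 0 ^ i.l = 0
  rw [hr, map_mul, map_pow, Polynomial.aeval_X]
  simp [h1]

theorem pr_J_all (τ : ℂ) (i : Idx K d) (x : E d) : pr (J τ i x) = toE τ i x := by
  rcases eq_or_ne x.1 0 with h | h
  · obtain ⟨z, v⟩ := x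
    obtain rfl : z = 0 := h
    rw [pr_J_zero]
    have : i.l + 1 ≠ 0 := by omega
    simp [toE, P_zero]
    rfl
  · rw [pr_J τ i h]
    rfl

theorem contMDiff_pr :
    ContMDiff 𝓘(ℂ, E d) 𝓘(ℂ, E d) (⊤ : WithTop ℕ∞) (pr : Pt K τ d → E d) := by
  intro p
  cases p with
  | reg x h =>
    exact contMDiffOn_pr_Om.contMDiffAt (isOpen_Om.mem_nhds (mem_Om_reg x h))
  | new i v =>
    have hmem : (Pt.new i v : Pt K τ d) ∈ range (J τ i) := (mem_range_J_new τ i i v).2 rfl
    have h1 : ContMDiffOn 𝓘(ℂ, E d) 𝓘(ℂ, E d) (⊤ : WithTop ℕ∞)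
        (toE τ i ∘ Cf τ i) (range (J τ i)) :=
      (contDiff_toE τ i).contMDiff.comp_contMDiffOn (contMDiffOn_Cf i)
    have h2 : ContMDiffOn 𝓘(ℂ, E d) 𝓘(ℂ, E d) (⊤ : WithTop ℕ∞)
        (pr : Pt K τ d → E d) (range (J τ i)) := by
      refine h1.congr ?_
      rintro _ ⟨x, rfl⟩
      change pr (J τ i x) = toE τ i (Cf τ i (J τ i x))
      rw [Cf_J, pr_J_all]
    exact h2.contMDiffAt ((isOpenEmbedding_J i).isOpen_range.mem_nhds hmem)

/-- a self-map of `Pt K τ d` is analytic at an added point if it is so in the coordinates `J i` -/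
theorem contMDiffAt_of_J {F : Pt K τ d → Pt K τ d} (i : Idx K d) (v : Fin d → ℂ)
    (h : ContMDiffAt 𝓘(ℂ, E d) 𝓘(ℂ, E d) (⊤ : WithTop ℕ∞) (F ∘ J τ i) (0, v)) :
    ContMDiffAt 𝓘(ℂ, E d) 𝓘(ℂ, E d) (⊤ : WithTop ℕ∞) F (Pt.new i v) := by
  have hmem : (Pt.new i v : Pt K τ d) ∈ range (J τ i) := (mem_range_J_new τ i i v).2 rfl
  have hn := (isOpenEmbedding_J (τ := τ) i).isOpen_range.mem_nhds hmem
  have h1 : ContMDiffAt 𝓘(ℂ, E d) 𝓘(ℂ, E d) (⊤ : WithTop ℕ∞) (Cf τ i) (Pt.new i v) :=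
    (contMDiffOn_Cf i).contMDiffAt hn
  have h2 : ContMDiffAt 𝓘(ℂ, E d) 𝓘(ℂ, E d) (⊤ : WithTop ℕ∞) ((F ∘ J τ i) ∘ Cf τ i)
      (Pt.new i v) := ContMDiffAt.comp (Pt.new i v) h h1
  refine h2.congr_of_eventuallyEq ?_
  filter_upwards [hn]
  rintro _ ⟨x, rfl⟩
  change F (J τ i x) = F (J τ i (Cf τ i (J τ i x)))
  rw [Cf_J]

/-- a self-map of `Pt K τ d` is analytic at a point of `E d` minus `0` if it is so in the
coordinates `J0` -/
theorem contMDiffAt_of_J0 {F : Pt K τ d → Pt K τ d} (x : E d) (hx : x ≠ 0)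
    (h : ContMDiffAt 𝓘(ℂ, E d) 𝓘(ℂ, E d) (⊤ : WithTop ℕ∞) (F ∘ J0 K τ) x) :
    ContMDiffAt 𝓘(ℂ, E d) 𝓘(ℂ, E d) (⊤ : WithTop ℕ∞) F (Pt.reg x hx) := by
  have hn := isOpen_Om.mem_nhds (mem_Om_reg (K := K) (τ := τ) x hx)
  have h1 : ContMDiffAt 𝓘(ℂ, E d) 𝓘(ℂ, E d) (⊤ : WithTop ℕ∞) (pr : Pt K τ d → E d)
      (Pt.reg x hx) := contMDiff_pr.contMDiffAt
  have h2 : ContMDiffAt 𝓘(ℂ, E d) 𝓘(ℂ, E d) (⊤ : WithTop ℕ∞) ((F ∘ J0 K τ) ∘ pr)
      (Pt.reg x hx) := ContMDiffAt.comp (Pt.reg x hx) h h1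
  refine h2.congr_of_eventuallyEq ?_
  filter_upwards [hn]
  intro p hp
  obtain ⟨y, hy, rfl⟩ := (mem_Om_iff p).1 hp
  change F (Pt.reg y hy) = F (J0 K τ y)
  rw [J0_ne τ hy]

/-- automorphisms of the complex manifold `Pt K τ d` -/
abbrev Aut (K : Subfield ℂ) (τ : ℂ) (d : ℕ) : Type :=
  Diffeomorph 𝓘(ℂ, E d) 𝓘(ℂ, E d) (Pt K τ d) (Pt K τ d) (⊤ : WithTop ℕ∞)

/-- in the set of added points each added copy of `ℂ^d` is open -/
theorem exists_isOpen_new (i : Idx K d) :
    ∃ U : Set (Pt K τ d), IsOpen U ∧ ∀ j v, (Pt.new j v : Pt K τ d) ∈ U ↔ j = i :=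
  ⟨range (J τ i), (isOpenEmbedding_J i).isOpen_range, fun j v => mem_range_J_new τ i j v⟩

end Pool.Agent.AH
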