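import Mathlib

/-!
# AH-Defs: an almost homogeneous complex manifold with trivial identity component

`E d = ℂ × ℂ^d` (`d ≥ 1`), `K` a subfield of `ℂ` (countable and dense in the application), `τ ∉ K`.
A `K`-rational jet `i : Idx K d` is an order `l ≥ 2` and a vector of polynomials `q j ∈ K[z]`, divisible
by `z ^ 2`, of degree `≤ l`.  `P τ i z = q z + τ z ^ l`.

`Pt K τ d` is the disjoint union of `E d` minus `0` and of the sets `{i} × ℂ^d`.  The charts are the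
identity of `E d` minus `0`, and for each `i` the (inverse of the) map
`J i (z, v) = (z, P τ i z + z ^ (l + 1) • v)` for `z ≠ 0`, `J i (0, v) = (i, v)`.
-/

set_option autoImplicit false

open Set Topology
open scoped Manifold ContDiff

namespace Pool.Agent.AH

/-- the model space `ℂ × ℂ^d` -/
abbrev E (d : ℕ) : Type := ℂ × (Fin d → ℂ)

/-- `K`-rational jets: order `l ≥ 2`, polynomials `q j` over `K` divisible by `z ^ 2`, degree `≤ l` -/
structure Idx (K : Subfield ℂ) (d : ℕ) where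
  /-- the order -/
  l : ℕ
  two_le : 2 ≤ l
  /-- the polynomials -/
  q : Fin d → Polynomial K
  dvd : ∀ j, Polynomial.X ^ 2 ∣ q j
  deg : ∀ j, (q j).natDegree ≤ l

/-- the trivial jet of order `2` -/
noncomputable def Idx.base (K : Subfield ℂ) (d : ℕ) : Idx K d :=
  ⟨2, le_rfl, fun _ => 0, fun _ => dvd_zero _, fun _ => by simp⟩

/-- the points of the manifold: `E d` minus `0` and one copy of `ℂ^d` for each rational jet -/
inductive Pt (K : Subfield ℂ) (τ : ℂ) (d : ℕ) : Type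
  /-- the points of `E d` minus `0` -/
  | reg (x : E d) (h : x ≠ 0) : Pt K τ d
  /-- the added points -/
  | new (i : Idx K d) (v : Fin d → ℂ) : Pt K τ d

variable {K : Subfield ℂ} {d : ℕ}

/-- `q z + τ z ^ l` -/
noncomputable def P (τ : ℂ) (i : Idx K d) (z : ℂ) : Fin d → ℂ :=
  fun j => Polynomial.aeval z (i.q j) + τ * z ^ i.l

/-- the projection to `E d`, which sends all added points to `0` -/
def pr {τ : ℂ} : Pt K τ d → E d
  | Pt.reg x _ => x
  | Pt.new _ _ => 0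

/-- the open set `E d` minus `0` of the manifold -/
def Om (K : Subfield ℂ) (τ : ℂ) (d : ℕ) : Set (Pt K τ d) := {p | pr p ≠ 0}

open Classical in
/-- the inclusion of `E d` minus `0` (a dummy value at `0`) -/
noncomputable def J0 (K : Subfield ℂ) (τ : ℂ) (x : E d) : Pt K τ d :=
  if h : x ≠ 0 then Pt.reg x h else Pt.new (Idx.base K d) 0

theorem jet_ne_zero {x : E d} (h : x.1 ≠ 0) (w : Fin d → ℂ) : ((x.1, w) : E d) ≠ 0 := fun e => h (by
  have := congrArg Prod.fst e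
  simpa using this)

open Classical in
/-- the parametrization around the added copy of `ℂ^d` with index `i` -/
noncomputable def J (τ : ℂ) (i : Idx K d) (x : E d) : Pt K τ d :=
  if h : x.1 = 0 then Pt.new i x.2
  else Pt.reg (x.1, P τ i x.1 + x.1 ^ (i.l + 1) • x.2) (jet_ne_zero h _)

/-- the coordinates around the added copy of `ℂ^d` with index `i` -/
noncomputable def Cf (τ : ℂ) (i : Idx K d) : Pt K τ d → E d
  | Pt.reg x _ => (x.1, (x.1 ^ (i.l + 1))⁻¹ • (x.2 - P τ i x.1))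
  | Pt.new _ v => (0, v)

theorem mem_Om_reg {τ : ℂ} (x : E d) (h : x ≠ 0) : (Pt.reg x h : Pt K τ d) ∈ Om K τ d := h

theorem notMem_Om_new {τ : ℂ} (i : Idx K d) (v : Fin d → ℂ) :
    (Pt.new i v : Pt K τ d) ∉ Om K τ d := fun h => h rfl

theorem J_zero (τ : ℂ) (i : Idx K d) (v : Fin d → ℂ) : J τ i (0, v) = Pt.new i v := by
  simp [J]

theorem J_ne (τ : ℂ) (i : Idx K d) {x : E d} (h : x.1 ≠ 0) :
    J τ i x = Pt.reg (x.1, P τ i x.1 + x.1 ^ (i.l + 1) • x.2) (jet_ne_zero h _) := by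
  simp [J, h]

theorem J0_ne (τ : ℂ) {x : E d} (h : x ≠ 0) : J0 K τ x = Pt.reg x h := by
  simp [J0, h]

theorem pr_J0 (τ : ℂ) {x : E d} (h : x ≠ 0) : pr (J0 K τ x) = x := by
  rw [J0_ne τ h]
  rfl

theorem pr_J_zero (τ : ℂ) (i : Idx K d) (v : Fin d → ℂ) : pr (J τ i (0, v)) = 0 := by
  rw [J_zero]
  rfl

theorem pr_J (τ : ℂ) (i : Idx K d) {x : E d} (h : x.1 ≠ 0) :
    pr (J τ i x) = (x.1, P τ i x.1 + x.1 ^ (i.l + 1) • x.2) := by
  rw [J_ne τ i h]
  rfl

theorem Cf_J (τ : ℂ) (i : Idx K d) (x : E d) : Cf τ i (J τ i x) = x := by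
  rcases eq_or_ne x.1 0 with h | h
  · obtain ⟨z, v⟩ := x
    obtain rfl : z = 0 := h
    rw [J_zero]
    rfl
  · rw [J_ne τ i h]
    have h' : x.1 ^ (i.l + 1) ≠ 0 := pow_ne_zero _ h
    change (x.1, (x.1 ^ (i.l + 1))⁻¹ • (P τ i x.1 + x.1 ^ (i.l + 1) • x.2 - P τ i x.1)) = x
    rw [add_sub_cancel_left, smul_smul, inv_mul_cancel₀ h', one_smul]

theorem J_Cf_reg (τ : ℂ) (i : Idx K d) {x : E d} (hx : x ≠ 0) (h : x.1 ≠ 0) :
    J τ i (Cf τ i (Pt.reg x hx)) = Pt.reg x hx := by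
  have h' : x.1 ^ (i.l + 1) ≠ 0 := pow_ne_zero _ h
  have h1 : (Cf τ i (Pt.reg x hx)).1 ≠ 0 := h
  rw [J_ne τ i h1]
  congr 1
  change (x.1, P τ i x.1 + x.1 ^ (i.l + 1) • ((x.1 ^ (i.l + 1))⁻¹ • (x.2 - P τ i x.1))) = x
  rw [smul_smul, mul_inv_cancel₀ h', one_smul, add_sub_cancel]

theorem mem_Om_iff {τ : ℂ} (p : Pt K τ d) : p ∈ Om K τ d ↔ ∃ x h, p = Pt.reg x h := by
  cases p with
  | reg x h => exact ⟨fun _ => ⟨x, h, rfl⟩, fun _ => h⟩
  | new i v =>
    refine ⟨fun h => absurd rfl h, ?_⟩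
    rintro ⟨x, h, e⟩
    cases e

/-- the chart `E d` minus `0` -/
noncomputable def ch0 (K : Subfield ℂ) (τ : ℂ) (d : ℕ) : PartialEquiv (Pt K τ d) (E d) where
  toFun := pr
  invFun := J0 K τ
  source := Om K τ d
  target := {0}ᶜ
  map_source' := fun _ h => h
  map_target' := by
    intro x hx
    rw [J0_ne τ hx]
    exact hx
  left_inv' := by
    intro p hp
    obtain ⟨x, h, rfl⟩ := (mem_Om_iff p).1 hp
    exact J0_ne τ h
  right_inv' := fun x hx => pr_J0 τ hx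

/-- the chart with index `i` -/
noncomputable def ch (τ : ℂ) (i : Idx K d) : PartialEquiv (Pt K τ d) (E d) where
  toFun := Cf τ i
  invFun := J τ i
  source := range (J τ i)
  target := univ
  map_source' := fun _ _ => mem_univ _
  map_target' := fun x _ => mem_range_self x
  left_inv' := by
    rintro _ ⟨x, rfl⟩
    rw [Cf_J]
  right_inv' := fun x _ => Cf_J τ i x

theorem mem_range_J_reg (τ : ℂ) (i : Idx K d) {x : E d} (hx : x ≠ 0) :
    (Pt.reg x hx : Pt K τ d) ∈ range (J τ i) ↔ x.1 ≠ 0 := by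
  constructor
  · rintro ⟨y, hy⟩
    rcases eq_or_ne y.1 0 with h | h
    · obtain ⟨z, v⟩ := y
      obtain rfl : z = 0 := h
      rw [J_zero] at hy
      cases hy
    · rw [J_ne τ i h] at hy
      have h1 : ((y.1, P τ i y.1 + y.1 ^ (i.l + 1) • y.2) : E d) = x := congrArg pr hy
      rw [← h1]
      exact h
  · intro h
    exact ⟨_, J_Cf_reg τ i hx h⟩

theorem mem_range_J_new (τ : ℂ) (i j : Idx K d) (v : Fin d → ℂ) :
    (Pt.new j v : Pt K τ d) ∈ range (J τ i) ↔ j = i := by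
  constructor
  · rintro ⟨y, hy⟩
    rcases eq_or_ne y.1 0 with h | h
    · obtain ⟨z, v⟩ := y
      obtain rfl : z = 0 := h
      rw [J_zero] at hy
      cases hy
      rfl
    · rw [J_ne τ i h] at hy
      cases hy
  · rintro rfl
    exact ⟨(0, v), J_zero τ j v⟩

/-- an entire function of one variable all of whose Taylor polynomials at `0` have coefficients in `K`
and which vanishes to order `≥ 2` at `0` -/
def KJet (K : Subfield ℂ) (f : ℂ → ℂ) : Prop :=
  Differentiable ℂ f ∧ ∀ n : ℕ, ∃ T : Polynomial K, Polynomial.X ^ 2 ∣ T ∧ T.natDegree ≤ n ∧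
    ∃ R : ℂ → ℂ, Differentiable ℂ R ∧ ∀ z, f z = Polynomial.aeval z T + z ^ (n + 1) * R z

/-- the map `Φ` of `E d` lifts to the added points: around each added copy of `ℂ^d` it is given in the
coordinates `J i`, `J i'` by an analytic map -/
def Lifts (K : Subfield ℂ) (τ : ℂ) (Φ : E d → E d) : Prop :=
  ∀ i : Idx K d, ∃ i' : Idx K d, ∃ U : Set (E d), IsOpen U ∧ (∀ v, ((0 : ℂ), v) ∈ U) ∧
    ∃ Ψ : E d → E d, ContDiffOn ℂ (⊤ : WithTop ℕ∞) Ψ U ∧ (∀ v, (Ψ (0, v)).1 = 0) ∧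
      ∀ x ∈ U, x.1 ≠ 0 → (Ψ x).1 ≠ 0 ∧
        Φ (x.1, P τ i x.1 + x.1 ^ (i.l + 1) • x.2)
          = ((Ψ x).1, P τ i' (Ψ x).1 + (Ψ x).1 ^ (i'.l + 1) • (Ψ x).2)

/-- the shear `(z, w) ↦ (z, w + f z)` -/
def shA (f : Fin d → ℂ → ℂ) : Equiv.Perm (E d) where
  toFun x := (x.1, fun j => x.2 j + f j x.1)
  invFun x := (x.1, fun j => x.2 j - f j x.1)
  left_inv x := by simp
  right_inv x := by simp

/-- the shear `(z, w) ↦ (z + h (∑ a_j w_j), w)` -/
def shB (h : ℂ → ℂ) (a : Fin d → ℂ) : Equiv.Perm (E d) where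
  toFun x := (x.1 + h (∑ j, a j * x.2 j), x.2)
  invFun x := (x.1 - h (∑ j, a j * x.2 j), x.2)
  left_inv x := by simp
  right_inv x := by simp

theorem KJet.neg {f : ℂ → ℂ} (hf : KJet K f) : KJet K (fun z => -f z) := by
  refine ⟨hf.1.neg, fun n => ?_⟩
  obtain ⟨T, h1, h2, R, hR, e⟩ := hf.2 n
  refine ⟨-T, (dvd_neg).2 h1, by rwa [Polynomial.natDegree_neg], fun z => -R z, hR.neg, fun z => ?_⟩
  change -f z = Polynomial.aeval z (-T) + z ^ (n + 1) * -R z
  rw [e z, map_neg]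
  ring

end Pool.Agent.AH
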