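import Pool.Agent.AH.RigB

/-!
# AH-Disc: the automorphism group is totally disconnected

PLAN.  Let `S` be a preconnected subset of the range, `φ, ψ` automorphisms with images in `S`; show `φ = ψ`
pointwise.  Fix `i : Idx K d`.  The map `ev : C(X, X) → X`, `f ↦ f (Pt.new i 0)` is continuous
(`ContinuousMap.continuous_eval_const`), so `ev '' S` is preconnected; it consists of added points
(`map_new`).  For each `j` the set `range (J τ j)` is open and meets the added points exactly in the
copy `j` (`exists_isOpen_new`); so `ev '' S` is in one copy: if `Pt.new j u`, `Pt.new j' u' ∈ ev '' S` with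
`j ≠ j'`, separate by `U_j` and the union of the other `U_{j''}` (`IsPreconnected` definition, or
`IsPreconnected.subset_...`).  So `φ (Pt.new i 0) = Pt.new j u`, `ψ (Pt.new i 0) = Pt.new j u'` with the same
`j`.  Put `χ = φ.trans ψ.symm`, i.e. `χ p = ψ.symm (φ p)`.  The set `ψ.symm '' {Pt.new j _}` is the image of
the connected set `{j} × ℂ^d` (image of `ℂ^d` under `v ↦ J τ j (0, v)`), consists of added points
and contains `Pt.new i 0`, so by the same argument it is in the copy `i`; so
`χ (Pt.new i 0) = Pt.new i v` for some `v`.  This holds for all `i`, so `χ = id` by `rigidB`, `φ = ψ`.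
-/

set_option autoImplicit false

open Set Topology Filter
open scoped Manifold ContDiff

namespace Pool.Agent.AH

variable {K : Subfield ℂ} {τ : ℂ} {d : ℕ}

/-- a preconnected set of added points is contained in one copy of `ℂ^d` -/
theorem same_index {S : Set (Pt K τ d)} (hS : IsPreconnected S)
    (h : ∀ p ∈ S, ∃ j v, p = Pt.new j v) {i j : Idx K d} {u v : Fin d → ℂ}
    (h1 : Pt.new i u ∈ S) (h2 : Pt.new j v ∈ S) : i = j := by
  by_contra hij
  choose U hU hmem using fun k : Idx K d => exists_isOpen_new (τ := τ) k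
  have hV : IsOpen (⋃ k ∈ {k : Idx K d | k ≠ i}, U k) := isOpen_biUnion fun k _ => hU k
  have hsub : S ⊆ U i ∪ ⋃ k ∈ {k : Idx K d | k ≠ i}, U k := by
    intro p hp
    obtain ⟨k, w, rfl⟩ := h p hp
    by_cases hk : k = i
    · exact Or.inl ((hmem i k w).2 hk)
    · exact Or.inr (mem_biUnion (show k ∈ {k : Idx K d | k ≠ i} from hk) ((hmem k k w).2 rfl))
  have hA : (S ∩ U i).Nonempty := ⟨_, h1, (hmem i i u).2 rfl⟩
  have hB : (S ∩ ⋃ k ∈ {k : Idx K d | k ≠ i}, U k).Nonempty :=
    ⟨_, h2, mem_biUnion (show j ∈ {k : Idx K d | k ≠ i} from fun e => hij e.symm)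
      ((hmem j j v).2 rfl)⟩
  obtain ⟨p, hp, hp1, hp2⟩ := hS _ _ (hU i) hV hsub hA hB
  obtain ⟨k, w, rfl⟩ := h p hp
  have e1 : k = i := (hmem i k w).1 hp1
  rw [mem_iUnion₂] at hp2
  obtain ⟨k', hk', hp3⟩ := hp2
  have e2 : k = k' := (hmem k' k w).1 hp3
  exact hk' (e2.symm.trans e1)

theorem totDisc (hd : 0 < d) (hK : Dense (K : Set ℂ)) (hτ : τ ∉ K) :
    IsTotallyDisconnected (range (fun ψ : Aut K τ d =>
      (ContinuousMap.mk ψ ψ.continuous : C(Pt K τ d, Pt K τ d)))) := by
  intro t ht hc f1 hf1 f2 hf2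
  obtain ⟨φ, rfl⟩ := ht hf1
  obtain ⟨ψ, rfl⟩ := ht hf2
  have key : ∀ i : Idx K d, ∃ v, (φ.trans ψ.symm) (Pt.new i 0) = Pt.new i v := by
    intro i
    obtain ⟨j, u, hu⟩ := map_new hd φ i 0
    obtain ⟨j', u', hu'⟩ := map_new hd ψ i 0
    have hev : Continuous fun f : C(Pt K τ d, Pt K τ d) => f (Pt.new i 0) :=
      ContinuousEvalConst.continuous_eval_const (Pt.new i 0)
    have hS := hc.image _ hev.continuousOn
    have hjj : j = j' := by
      refine same_index hS ?_ (u := u) (v := u') ?_ ?_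
      · rintro p ⟨f, hf, rfl⟩
        obtain ⟨χ, rfl⟩ := ht hf
        exact map_new hd χ i 0
      · exact ⟨_, hf1, hu⟩
      · exact ⟨_, hf2, hu'⟩
    subst hjj
    have hcont : Continuous fun v : Fin d → ℂ => ψ.symm (J τ j ((0 : ℂ), v)) :=
      ψ.symm.continuous.comp ((isOpenEmbedding_J j).continuous.comp
        (continuous_const.prodMk continuous_id))
    have hS2 : IsPreconnected (range fun v : Fin d → ℂ => ψ.symm (J τ j ((0 : ℂ), v))) :=
      isPreconnected_range hcont
    obtain ⟨k, w, hw⟩ := map_new hd ψ.symm j u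
    have hki : k = i := by
      refine same_index hS2 ?_ (u := w) (v := 0) ?_ ?_
      · rintro p ⟨v, rfl⟩
        show ∃ j_1 v_1, ψ.symm (J τ j ((0 : ℂ), v)) = Pt.new j_1 v_1
        rw [J_zero]
        exact map_new hd ψ.symm j v
      · refine ⟨u, ?_⟩
        show ψ.symm (J τ j ((0 : ℂ), u)) = Pt.new k w
        rw [J_zero, hw]
      · refine ⟨u', ?_⟩
        show ψ.symm (J τ j ((0 : ℂ), u')) = Pt.new i 0
        rw [J_zero, ← hu']
        exact ψ.symm_apply_apply _
    subst hki
    refine ⟨w, ?_⟩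
    show ψ.symm (φ (Pt.new k 0)) = Pt.new k w
    rw [hu, hw]
  have hid := rigidB hd hK hτ (φ.trans ψ.symm) key
  ext p
  show φ p = ψ p
  have h1 : ψ.symm (φ p) = p := hid p
  calc φ p = ψ (ψ.symm (φ p)) := (ψ.apply_symm_apply _).symm
    _ = ψ p := by rw [h1]

end Pool.Agent.AH
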