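import Pool.Agent.AH.Defs

/-!
# AH-Hart: a holomorphic function on `E d` minus `0` has a limit at `0` (Hartogs)

For `w, w' ≠ 0` the function `f (·, w) - f (·, w')` is entire, so on the unit disc it is bounded by its maximum on the unit
circle, which is small if `w`, `w'` are close (`f` is uniformly continuous on `‖ζ‖ = 1`, `‖w‖ ≤ 1`).  With the continuity of
`f (·, w₀)` at `0` for one small `w₀ ≠ 0` this is Cauchy's criterion; the points `(z, 0)` are limits of points `(z, w)`, `w ≠ 0`.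
-/

set_option autoImplicit false

open Set Topology Filter

namespace Pool.Agent.AH

private theorem hart_ne {d : ℕ} {z : ℂ} {w : Fin d → ℂ} (h : z ≠ 0 ∨ w ≠ 0) : ((z, w) : E d) ≠ 0 := by
  intro e
  have e1 : z = 0 := congrArg Prod.fst e
  have e2 : w = 0 := congrArg Prod.snd e
  rcases h with h | h
  · exact h e1
  · exact h e2

private theorem hart_diff {d : ℕ} {f : E d → ℂ} (hf : DifferentiableOn ℂ f {0}ᶜ) {w : Fin d → ℂ} (hw : w ≠ 0) :
    Differentiable ℂ fun z => f (z, w) := by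
  intro z
  have h1 : DifferentiableAt ℂ f ((z, w) : E d) :=
    hf.differentiableAt (isOpen_compl_singleton.mem_nhds (hart_ne (Or.inr hw)))
  exact h1.comp z (differentiableAt_id.prodMk (differentiableAt_const w))

/-- closeness of the values over the unit disc -/
private theorem hart_close {d : ℕ} {f : E d → ℂ} (hf : DifferentiableOn ℂ f {0}ᶜ) {ε : ℝ} (hε : 0 < ε) :
    ∃ δ : ℝ, 0 < δ ∧ ∀ (z : ℂ) (w w' : Fin d → ℂ), ‖z‖ ≤ 1 → w ≠ 0 → w' ≠ 0 → ‖w‖ < δ → ‖w'‖ < δ →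
      ‖f (z, w) - f (z, w')‖ ≤ ε := by
  have hK : IsCompact (Metric.sphere (0 : ℂ) 1 ×ˢ Metric.closedBall (0 : Fin d → ℂ) 1) :=
    (isCompact_sphere _ _).prod (isCompact_closedBall _ _)
  have hKs : Metric.sphere (0 : ℂ) 1 ×ˢ Metric.closedBall (0 : Fin d → ℂ) 1 ⊆ ({0}ᶜ : Set (E d)) := by
    rintro ⟨z, w⟩ ⟨hz, -⟩
    refine hart_ne (Or.inl ?_)
    intro h0
    simp only at hz
    rw [h0] at hz
    simp at hz
  have hu := hK.uniformContinuousOn_of_continuous (hf.continuousOn.mono hKs)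
  obtain ⟨δ, hδ, hδ'⟩ := Metric.uniformContinuousOn_iff.1 hu ε hε
  refine ⟨min (δ / 2) 1, by positivity, fun z w w' hz hw hw' hwδ hwδ' => ?_⟩
  have h1 : ‖w‖ < δ / 2 := lt_of_lt_of_le hwδ (min_le_left _ _)
  have h2 : ‖w'‖ < δ / 2 := lt_of_lt_of_le hwδ' (min_le_left _ _)
  have h3 : ‖w‖ ≤ 1 := (lt_of_lt_of_le hwδ (min_le_right _ _)).le
  have h4 : ‖w'‖ ≤ 1 := (lt_of_lt_of_le hwδ' (min_le_right _ _)).le
  have hd : Differentiable ℂ fun ζ => f (ζ, w) - f (ζ, w') := (hart_diff hf hw).sub (hart_diff hf hw')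
  refine Complex.norm_le_of_forall_mem_frontier_norm_le (f := fun ζ => f (ζ, w) - f (ζ, w'))
    (U := Metric.ball (0 : ℂ) 1) Metric.isBounded_ball hd.diffContOnCl (fun ζ hζ => ?_) ?_
  · rw [frontier_ball (0 : ℂ) one_ne_zero] at hζ
    have h5 := hδ' (ζ, w) ⟨hζ, by simpa using h3⟩ (ζ, w') ⟨hζ, by simpa using h4⟩ (by
      rw [Prod.dist_eq, dist_self, max_eq_right dist_nonneg, dist_eq_norm]
      calc ‖w - w'‖ ≤ ‖w‖ + ‖w'‖ := norm_sub_le _ _
        _ < δ := by linarith)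
    rw [dist_eq_norm] at h5
    exact h5.le
  · rw [closure_ball (0 : ℂ) one_ne_zero]
    simpa using hz

private theorem hart_const {d : ℕ} (hd : 0 < d) {t : ℝ} (ht : t ≠ 0) :
    (fun _ : Fin d => (t : ℂ)) ≠ 0 ∧ ‖(fun _ : Fin d => (t : ℂ))‖ = |t| := by
  have : Nonempty (Fin d) := ⟨⟨0, hd⟩⟩
  constructor
  · intro h
    have h1 := congrFun h ⟨0, hd⟩
    exact ht (by simpa using h1)
  · rw [pi_norm_const]
    simp

theorem hartogs_limit {d : ℕ} (hd : 0 < d) {f : E d → ℂ} (hf : DifferentiableOn ℂ f {0}ᶜ) :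
    ∃ L : ℂ, Tendsto f (𝓝[≠] 0) (𝓝 L) := by
  have hkey : ∀ ε : ℝ, 0 < ε → ∃ (c : ℂ) (ρ : ℝ), 0 < ρ ∧ ∀ x : E d, x ≠ 0 → ‖x‖ < ρ → ‖f x - c‖ ≤ 2 * ε := by
    intro ε hε
    obtain ⟨δ, hδ, hcl⟩ := hart_close hf hε
    obtain ⟨hw1, hw2⟩ := hart_const hd (t := δ / 2) (by positivity)
    obtain ⟨w₀, hw₀⟩ : ∃ w₀ : Fin d → ℂ, w₀ = fun _ => ((δ / 2 : ℝ) : ℂ) := ⟨_, rfl⟩
    rw [← hw₀] at hw1 hw2
    have hw3 : ‖w₀‖ < δ := by
      rw [hw2, abs_of_pos (by positivity)]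
      linarith
    have hc : ContinuousAt (fun z => f (z, w₀)) 0 := (hart_diff hf hw1).continuous.continuousAt
    obtain ⟨δ', hδ', hc'⟩ := Metric.continuousAt_iff.1 hc ε hε
    refine ⟨f (0, w₀), min (min δ δ') 1, by positivity, ?_⟩
    -- points with `w ≠ 0`
    have hne : ∀ (z : ℂ) (w : Fin d → ℂ), w ≠ 0 → ‖z‖ < min (min δ δ') 1 → ‖w‖ < δ →
        ‖f (z, w) - f (0, w₀)‖ ≤ 2 * ε := by
      intro z w hw hz hwδ
      have h1 : ‖z‖ < δ' := lt_of_lt_of_le hz ((min_le_left _ _).trans (min_le_right _ _))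
      have h2 : ‖z‖ ≤ 1 := (lt_of_lt_of_le hz (min_le_right _ _)).le
      have h3 := hcl z w w₀ h2 hw hw1 hwδ hw3
      have h4 := hc' (x := z) (by rwa [dist_zero_right])
      rw [dist_eq_norm] at h4
      calc ‖f (z, w) - f (0, w₀)‖ = ‖(f (z, w) - f (z, w₀)) + (f (z, w₀) - f (0, w₀))‖ := by
            rw [sub_add_sub_cancel]
        _ ≤ ‖f (z, w) - f (z, w₀)‖ + ‖f (z, w₀) - f (0, w₀)‖ := norm_add_le _ _
        _ ≤ 2 * ε := by linarith
    rintro ⟨z, w⟩ hx hxρ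
    have hz : ‖z‖ < min (min δ δ') 1 := lt_of_le_of_lt (norm_fst_le (z, w)) hxρ
    have hwρ : ‖w‖ < min (min δ δ') 1 := lt_of_le_of_lt (norm_snd_le (z, w)) hxρ
    have hwδ : ‖w‖ < δ := lt_of_lt_of_le hwρ ((min_le_left _ _).trans (min_le_left _ _))
    by_cases hw : w = 0
    · subst hw
      have hcont : ContinuousAt f ((z, 0) : E d) :=
        (hf.differentiableAt (isOpen_compl_singleton.mem_nhds hx)).continuousAt
      have hpath : Tendsto (fun t : ℝ => ((z, fun _ => (t : ℂ)) : E d)) (𝓝[≠] 0) (𝓝 (z, 0)) := by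
        have h1 : Continuous fun t : ℝ => ((z, fun _ => (t : ℂ)) : E d) := by fun_prop
        have h2 := h1.tendsto 0
        have h3 : ((z, fun _ => ((0 : ℝ) : ℂ)) : E d) = (z, 0) := rfl
        rw [h3] at h2
        exact h2.mono_left nhdsWithin_le_nhds
      have hlim : Tendsto (fun t : ℝ => ‖f ((z, fun _ => (t : ℂ)) : E d) - f (0, w₀)‖) (𝓝[≠] 0)
          (𝓝 ‖f (z, 0) - f (0, w₀)‖) :=
        ((hcont.tendsto.comp hpath).sub_const _).norm
      refine le_of_tendsto hlim ?_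
      have hev : ∀ᶠ t : ℝ in 𝓝[≠] 0, |t| < δ := by
        have h1 : ∀ᶠ t : ℝ in 𝓝 0, |t| < δ := by
          have h2 : Tendsto (fun t : ℝ => |t|) (𝓝 0) (𝓝 |0|) := (continuous_abs.tendsto 0)
          rw [abs_zero] at h2
          exact h2.eventually (gt_mem_nhds hδ)
        exact h1.filter_mono nhdsWithin_le_nhds
      filter_upwards [hev, self_mem_nhdsWithin] with t ht ht0
      obtain ⟨a1, a2⟩ := hart_const hd (t := t) ht0
      exact hne z _ a1 hz (by rw [a2]; exact ht)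
    · exact hne z w hw hz hwδ
  have : Nonempty (Fin d) := ⟨⟨0, hd⟩⟩
  have hnb : NeBot (𝓝[≠] (0 : E d)) := Module.punctured_nhds_neBot ℂ (E d) 0
  have hcau : Cauchy (map f (𝓝[≠] (0 : E d))) := by
    rw [Metric.cauchy_iff]
    refine ⟨hnb.map f, fun ε hε => ?_⟩
    obtain ⟨c, ρ, hρ, hb⟩ := hkey (ε / 8) (by positivity)
    refine ⟨f '' ({x | x ≠ 0} ∩ Metric.ball 0 ρ), ?_, ?_⟩
    · refine image_mem_map ?_
      rw [inter_comm]
      exact inter_mem (mem_nhdsWithin_of_mem_nhds (Metric.ball_mem_nhds _ hρ)) self_mem_nhdsWithin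
    · rintro _ ⟨x, ⟨hx0, hx⟩, rfl⟩ _ ⟨y, ⟨hy0, hy⟩, rfl⟩
      rw [mem_ball_zero_iff] at hx hy
      have h1 := hb x hx0 hx
      have h2 := hb y hy0 hy
      rw [dist_eq_norm]
      calc ‖f x - f y‖ = ‖(f x - c) - (f y - c)‖ := by rw [sub_sub_sub_cancel_right]
        _ ≤ ‖f x - c‖ + ‖f y - c‖ := norm_sub_le _ _
        _ < ε := by linarith
  obtain ⟨L, hL⟩ := CompleteSpace.complete hcau
  exact ⟨L, hL⟩

end Pool.Agent.AH
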