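import Pool.Agent.AH.Core

/-!
# AH-Haus: `Pt K τ d` is Hausdorff if `τ ∉ K`

`poly_gap`: two different jets `P τ i`, `P τ j` differ at `z` at least by a multiple of `‖z‖ ^ i.l` in
some coordinate (the polynomial `P τ i - P τ j` has a nonzero coefficient of order `≤ i.l`).  Hence
small neighbourhoods of two added points with different indices are disjoint; all other pairs of
points are separated by the projection `pr` or inside one coordinate domain.
-/

set_option autoImplicit false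

open Set Topology
open scoped Manifold ContDiff

namespace Pool.Agent.AH

variable {K : Subfield ℂ} {τ : ℂ} {d : ℕ}

private lemma gapAux (D : Polynomial ℂ) (n : ℕ) (h : ∃ m, m ≤ n ∧ D.coeff m ≠ 0) :
    ∃ ε > (0 : ℝ), ∃ r > (0 : ℝ), ∀ z : ℂ, ‖z‖ < r → ε * ‖z‖ ^ n ≤ ‖D.eval z‖ := by
  classical
  obtain ⟨m, hmn, hm⟩ := h
  have h' : ∃ m, D.coeff m ≠ 0 := ⟨m, hm⟩
  have ht : D.coeff (Nat.find h') ≠ 0 := Nat.find_spec h'
  have htn : Nat.find h' ≤ n := (Nat.find_min' h' hm).trans hmn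
  have hdvd : (Polynomial.X : Polynomial ℂ) ^ (Nat.find h') ∣ D :=
    Polynomial.X_pow_dvd_iff.2 (fun e he => not_not.1 (Nat.find_min h' he))
  generalize Nat.find h' = t at ht htn hdvd
  obtain ⟨D', rfl⟩ := hdvd
  have hc : D'.eval 0 ≠ 0 := by
    rw [← Polynomial.coeff_zero_eq_eval_zero]
    have := Polynomial.coeff_X_pow_mul D' t 0
    rw [zero_add] at this
    rwa [this] at ht
  have hpos : 0 < ‖D'.eval 0‖ := norm_pos_iff.2 hc
  have hcont : Continuous (fun z : ℂ => ‖D'.eval z‖) := D'.continuous.norm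
  have hev : ∀ᶠ z in 𝓝 (0 : ℂ), ‖D'.eval 0‖ / 2 < ‖D'.eval z‖ :=
    hcont.continuousAt.eventually (lt_mem_nhds (by linarith))
  obtain ⟨r, hr, hball⟩ := Metric.eventually_nhds_iff.1 hev
  refine ⟨‖D'.eval 0‖ / 2, by positivity, min r 1, lt_min hr one_pos, fun z hz => ?_⟩
  have hz1 : ‖z‖ < r := hz.trans_le (min_le_left _ _)
  have hz2 : ‖z‖ < 1 := hz.trans_le (min_le_right _ _)
  have h1 := hball (y := z) (by rwa [dist_zero_right])
  have h2 : ‖z‖ ^ n ≤ ‖z‖ ^ t := pow_le_pow_of_le_one (norm_nonneg _) hz2.le htn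
  rw [Polynomial.eval_mul, Polynomial.eval_pow, Polynomial.eval_X, norm_mul, norm_pow, mul_comm]
  exact mul_le_mul h2 h1.le (by positivity) (by positivity)

private lemma coeffAux (i : Idx K d) (c : Fin d) (z : ℂ) :
    P τ i z c = (((i.q c).map (algebraMap K ℂ)) + Polynomial.C τ * Polynomial.X ^ i.l).eval z := by
  simp [P, Polynomial.aeval_def, Polynomial.eval_map]

theorem poly_gap (hd : 0 < d) (hτ : τ ∉ K) {i j : Idx K d} (hij : i ≠ j) (hl : i.l ≤ j.l) :
    ∃ c : Fin d, ∃ ε > (0 : ℝ), ∃ r > (0 : ℝ), ∀ z : ℂ, z ≠ 0 → ‖z‖ < r →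
      ε * ‖z‖ ^ i.l ≤ ‖P τ i z c - P τ j z c‖ := by
  have key : ∃ c : Fin d, ∃ m, m ≤ i.l ∧
      ((((i.q c).map (algebraMap K ℂ)) + Polynomial.C τ * Polynomial.X ^ i.l)
        - (((j.q c).map (algebraMap K ℂ)) + Polynomial.C τ * Polynomial.X ^ j.l)).coeff m ≠ 0 := by
    rcases hl.lt_or_eq with hlt | heq
    · refine ⟨⟨0, hd⟩, i.l, le_rfl, fun h0 => hτ ?_⟩
      rw [Polynomial.coeff_sub, Polynomial.coeff_add, Polynomial.coeff_add, Polynomial.coeff_C_mul,
        Polynomial.coeff_C_mul, Polynomial.coeff_X_pow, Polynomial.coeff_X_pow, if_pos rfl,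
        if_neg hlt.ne, Polynomial.coeff_map, Polynomial.coeff_map, mul_one, mul_zero, add_zero,
        sub_eq_zero] at h0
      have h1 : τ = algebraMap K ℂ ((j.q ⟨0, hd⟩).coeff i.l - (i.q ⟨0, hd⟩).coeff i.l) := by
        rw [map_sub, ← h0]
        ring
      rw [h1]
      exact ((j.q ⟨0, hd⟩).coeff i.l - (i.q ⟨0, hd⟩).coeff i.l).2
    · have hq : ∃ c, i.q c ≠ j.q c := by
        by_contra hcon
        push Not at hcon
        apply hij
        obtain ⟨l, h2, q, hd1, hd2⟩ := i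
        obtain ⟨l', h2', q', hd1', hd2'⟩ := j
        obtain rfl : l = l' := heq
        obtain rfl : q = q' := funext hcon
        rfl
      obtain ⟨c, hc⟩ := hq
      have hm : ∃ m, (i.q c).coeff m ≠ (j.q c).coeff m := by
        by_contra hcon
        push Not at hcon
        exact hc (Polynomial.ext hcon)
      obtain ⟨m, hm⟩ := hm
      have hml : m ≤ i.l := by
        by_contra hcon
        push Not at hcon
        apply hm
        rw [Polynomial.coeff_eq_zero_of_natDegree_lt ((i.deg c).trans_lt hcon),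
          Polynomial.coeff_eq_zero_of_natDegree_lt ((j.deg c).trans_lt (heq ▸ hcon))]
      refine ⟨c, m, hml, fun h0 => hm ?_⟩
      rw [← heq] at h0
      rw [add_sub_add_right_eq_sub, Polynomial.coeff_sub, Polynomial.coeff_map,
        Polynomial.coeff_map, sub_eq_zero] at h0
      exact (algebraMap K ℂ).injective h0
  obtain ⟨c, m, hml, hm⟩ := key
  obtain ⟨ε, hε, r, hr, hall⟩ := gapAux _ i.l ⟨m, hml, hm⟩
  refine ⟨c, ε, hε, r, hr, fun z _ hz => ?_⟩
  rw [coeffAux, coeffAux, ← Polynomial.eval_sub]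
  exact hall z hz

private lemma sepAux (hd : 0 < d) (hτ : τ ∉ K) {i j : Idx K d} (hij : i ≠ j) (hl : i.l ≤ j.l)
    (v v' : Fin d → ℂ) :
    ∃ u u' : Set (Pt K τ d), IsOpen u ∧ IsOpen u' ∧ Pt.new i v ∈ u ∧ Pt.new j v' ∈ u' ∧
      Disjoint u u' := by
  obtain ⟨c, ε, hε, r, hr, hgap⟩ := poly_gap hd hτ hij hl
  have hM : 0 < ‖v‖ + ‖v'‖ + 2 := by positivity
  have hδ : 0 < min (min 1 r) (ε / (‖v‖ + ‖v'‖ + 2)) :=
    lt_min (lt_min one_pos hr) (div_pos hε hM)
  have hδ1 : min (min 1 r) (ε / (‖v‖ + ‖v'‖ + 2)) ≤ 1 := (min_le_left _ _).trans (min_le_left _ _)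
  have hδr : min (min 1 r) (ε / (‖v‖ + ‖v'‖ + 2)) ≤ r := (min_le_left _ _).trans (min_le_right _ _)
  have hδε : min (min 1 r) (ε / (‖v‖ + ‖v'‖ + 2)) ≤ ε / (‖v‖ + ‖v'‖ + 2) := min_le_right _ _
  generalize min (min 1 r) (ε / (‖v‖ + ‖v'‖ + 2)) = δ at hδ hδ1 hδr hδε
  refine ⟨J τ i '' Metric.ball (0, v) δ, J τ j '' Metric.ball (0, v') δ,
    (isOpenEmbedding_J i).isOpenMap _ Metric.isOpen_ball,
    (isOpenEmbedding_J j).isOpenMap _ Metric.isOpen_ball,
    ⟨(0, v), Metric.mem_ball_self hδ, J_zero τ i v⟩,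
    ⟨(0, v'), Metric.mem_ball_self hδ, J_zero τ j v'⟩, ?_⟩
  rw [Set.disjoint_left]
  rintro _ ⟨⟨z, a⟩, hy, rfl⟩ ⟨⟨z', b⟩, hy', he⟩
  rcases eq_or_ne z 0 with h | h
  · subst h
    rw [J_zero] at he
    rcases eq_or_ne z' 0 with h' | h'
    · subst h'
      rw [J_zero] at he
      cases he
      exact hij rfl
    · rw [J_ne τ j (x := (z', b)) h'] at he
      cases he
  · rw [J_ne τ i (x := (z, a)) h] at he
    rcases eq_or_ne z' 0 with h' | h'
    · subst h'
      rw [J_zero] at he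
      cases he
    · rw [J_ne τ j (x := (z', b)) h'] at he
      have he1 : ((z', P τ j z' + z' ^ (j.l + 1) • b) : E d) = (z, P τ i z + z ^ (i.l + 1) • a) :=
        congrArg pr he
      obtain ⟨h1, h2⟩ := Prod.mk.inj he1
      subst h1
      have h3 := congrFun h2 c
      simp only [Pi.add_apply, Pi.smul_apply, smul_eq_mul] at h3
      have h4 : P τ i z' c - P τ j z' c = z' ^ (j.l + 1) * b c - z' ^ (i.l + 1) * a c := by
        linear_combination -h3
      rw [Metric.mem_ball, Prod.dist_eq, max_lt_iff] at hy hy'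
      obtain ⟨hy1, hy2⟩ := hy
      obtain ⟨-, hy2'⟩ := hy'
      simp only [dist_zero_right] at hy1
      have hz1 : ‖z'‖ ≤ 1 := hy1.le.trans hδ1
      have ha : ‖a c‖ ≤ ‖v‖ + 1 := by
        have h5 : ‖a c‖ ≤ ‖a‖ := norm_le_pi_norm a c
        have h6 : ‖a‖ ≤ ‖v‖ + ‖a - v‖ := by
          have := norm_add_le v (a - v)
          rwa [add_sub_cancel] at this
        have h7 : ‖a - v‖ ≤ 1 := by
          rw [← dist_eq_norm]
          exact hy2.le.trans hδ1
        linarith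
      have hb : ‖b c‖ ≤ ‖v'‖ + 1 := by
        have h5 : ‖b c‖ ≤ ‖b‖ := norm_le_pi_norm b c
        have h6 : ‖b‖ ≤ ‖v'‖ + ‖b - v'‖ := by
          have := norm_add_le v' (b - v')
          rwa [add_sub_cancel] at this
        have h7 : ‖b - v'‖ ≤ 1 := by
          rw [← dist_eq_norm]
          exact hy2'.le.trans hδ1
        linarith
      have hzp : 0 < ‖z'‖ := norm_pos_iff.2 h
      have hzi : 0 < ‖z'‖ ^ i.l := pow_pos hzp _
      have h8 := hgap z' h (hy1.trans_le hδr)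
      rw [h4] at h8
      have h9 : ‖z' ^ (j.l + 1) * b c - z' ^ (i.l + 1) * a c‖
          ≤ ‖z'‖ ^ (j.l + 1) * ‖b c‖ + ‖z'‖ ^ (i.l + 1) * ‖a c‖ := by
        refine (norm_sub_le _ _).trans ?_
        rw [norm_mul, norm_mul, norm_pow, norm_pow]
      have h10 : ‖z'‖ ^ (j.l + 1) ≤ ‖z'‖ ^ (i.l + 1) :=
        pow_le_pow_of_le_one hzp.le hz1 (Nat.succ_le_succ hl)
      have h11 : ‖z'‖ ^ (j.l + 1) * ‖b c‖ ≤ ‖z'‖ ^ (i.l + 1) * (‖v'‖ + 1) :=
        mul_le_mul h10 hb (norm_nonneg _) (by positivity)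
      have h12 : ‖z'‖ ^ (i.l + 1) * ‖a c‖ ≤ ‖z'‖ ^ (i.l + 1) * (‖v‖ + 1) :=
        mul_le_mul_of_nonneg_left ha (by positivity)
      have h13 : ε * ‖z'‖ ^ i.l ≤ ‖z'‖ ^ i.l * (‖z'‖ * (‖v‖ + ‖v'‖ + 2)) := by
        have e : ‖z'‖ ^ (i.l + 1) = ‖z'‖ ^ i.l * ‖z'‖ := pow_succ _ _
        have h16 : ‖z'‖ ^ (i.l + 1) * (‖v'‖ + 1) + ‖z'‖ ^ (i.l + 1) * (‖v‖ + 1)
            = ‖z'‖ ^ i.l * (‖z'‖ * (‖v‖ + ‖v'‖ + 2)) := by
          rw [e]
          ring
        linarith [h8, h9, h11, h12, h16]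
      have h14 : ε ≤ ‖z'‖ * (‖v‖ + ‖v'‖ + 2) := by
        rw [mul_comm] at h13
        exact le_of_mul_le_mul_left h13 hzi
      have h15 : ‖z'‖ * (‖v‖ + ‖v'‖ + 2) < ε := by
        have := hy1.trans_le hδε
        rwa [lt_div_iff₀ hM] at this
      exact absurd h14 (not_le.2 h15)

theorem t2Space (hd : 0 < d) (hτ : τ ∉ K) : T2Space (Pt K τ d) := by
  refine ⟨fun p p' hpp' => ?_⟩
  by_cases hpr : pr p = pr p'
  · cases p with
    | reg x h =>
      cases p' with
      | reg x' h' =>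
        exfalso
        apply hpp'
        have : x = x' := hpr
        subst this
        rfl
      | new j v' => exact absurd hpr h
    | new i v =>
      cases p' with
      | reg x' h' => exact absurd hpr.symm h'
      | new j v' =>
        rcases eq_or_ne i j with hij | hij
        · subst hij
          have hvv : ((0 : ℂ), v) ≠ (0, v') := by
            intro h
            apply hpp'
            rw [(Prod.mk.inj h).2]
          obtain ⟨u, u', hu, hu', hxu, hxu', hdis⟩ := t2_separation hvv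
          exact ⟨J τ i '' u, J τ i '' u', (isOpenEmbedding_J i).isOpenMap _ hu,
            (isOpenEmbedding_J i).isOpenMap _ hu', ⟨_, hxu, J_zero τ i v⟩,
            ⟨_, hxu', J_zero τ i v'⟩, (disjoint_image_iff (isOpenEmbedding_J i).injective).2 hdis⟩
        · rcases le_total i.l j.l with hl | hl
          · exact sepAux hd hτ hij hl v v'
          · obtain ⟨u, u', hu, hu', hxu, hxu', hdis⟩ := sepAux hd hτ hij.symm hl v' v
            exact ⟨u', u, hu', hu, hxu', hxu, hdis.symm⟩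
  · obtain ⟨u, u', hu, hu', hxu, hxu', hdis⟩ := t2_separation hpr
    have hc : Continuous (pr : Pt K τ d → E d) := contMDiff_pr.continuous
    exact ⟨pr ⁻¹' u, pr ⁻¹' u', hu.preimage hc, hu'.preimage hc, hxu, hxu', hdis.preimage _⟩

end Pool.Agent.AH
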