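import Pool.Agent.AH.Defs

/-!
# AH-Interp: interpolation by entire functions with Taylor coefficients in `K`

PLAN.  (1) `kjet_of_series`: if all `b m ∈ K`, `b 0 = b 1 = 0` and `∑ ‖b m‖ r ^ m < ∞` for every `r`, then
`f z = ∑' m, b m * z ^ m` is `KJet`: entire by `Complex.differentiableOn_tsum_of_summable_norm` on balls;
`T = ∑ m ≤ n, b m X ^ m`, `R z = ∑' m, b (m + n + 1) * z ^ m` (again entire), `Summable.sum_add_tsum_nat_add`.
(2) Let `S` be the finite set.  `W₀ = ∏ s ∈ S, (X - C s) ∈ ℂ[X]`, `W₀(0) = ω ≠ 0`.  Let `Q₀ ∈ ℂ[X]` with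
`Q₀(s) = c s / s ^ 2` for `s ∈ S` (`Lagrange.interpolate`).  Look for `f = X ^ 2 * (Q₀ + W₀ * σ)`, `σ = ∑ t_m X ^ m`:
the coefficient of `z ^ (m + 2)` of `f` is `Q₀.coeff m + ∑_{l ≤ m} W₀.coeff (m - l) * t l`, where `t m` occurs
with the factor `ω`.  Since `K` is dense one can choose recursively (strong recursion, or an existence
statement about finite initial segments) `t m` with `‖t m‖ ≤ 1 / m!` such that this coefficient is in
`K`.  (3) `b m` = that coefficient of index `m - 2` (`b 0 = b 1 = 0`); `∑ ‖b m‖ r ^ m < ∞`: `b (m + 2)` is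
`Q₀.coeff m` (finitely many) plus the finite sum over `j` (`j ≤ deg W₀`) of
`W₀.coeff j * t (m - j) [j ≤ m]`; and `f z = z ^ 2 * (Q₀ z + W₀ z * σ z)`, so `f s = c s` for `s ∈ S`
(Cauchy product with a polynomial: again a finite sum over `j` of shifted series).
-/

set_option autoImplicit false

open Set Topology Filter

namespace Pool.Agent.AH

variable {K : Subfield ℂ}

private theorem ent {b : ℕ → ℂ} (hs : ∀ r : ℝ, 0 ≤ r → Summable fun m => ‖b m‖ * r ^ m) :
    Differentiable ℂ (fun z => ∑' m, b m * z ^ m) := by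
  intro z
  have h : DifferentiableOn ℂ (fun w => ∑' m, b m * w ^ m) (Metric.ball 0 (‖z‖ + 1)) := by
    refine Complex.differentiableOn_tsum_of_summable_norm (hs (‖z‖ + 1) (by positivity)) ?_
      Metric.isOpen_ball ?_
    · intro m
      fun_prop
    · intro m w hw
      rw [norm_mul, norm_pow]
      have : ‖w‖ < ‖z‖ + 1 := by simpa using hw
      gcongr
  exact h.differentiableAt (Metric.isOpen_ball.mem_nhds (by simp))

private theorem shift {b : ℕ → ℂ} (hs : ∀ r : ℝ, 0 ≤ r → Summable fun m => ‖b m‖ * r ^ m) (k : ℕ)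
    (r : ℝ) (hr : 0 ≤ r) : Summable fun m => ‖b (m + k)‖ * r ^ m := by
  have h1 := (summable_nat_add_iff k).2 (hs (r + 1) (by linarith))
  refine Summable.of_nonneg_of_le (fun m => by positivity) (fun m => ?_) h1
  gcongr
  calc r ^ m ≤ (r + 1) ^ m := by gcongr; linarith
    _ ≤ (r + 1) ^ (m + k) := pow_le_pow_right₀ (by linarith) (by omega)

private theorem summ {b : ℕ → ℂ} (hs : ∀ r : ℝ, 0 ≤ r → Summable fun m => ‖b m‖ * r ^ m) (z : ℂ) :
    Summable fun m => b m * z ^ m := by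
  apply Summable.of_norm
  simpa [norm_mul, norm_pow] using hs ‖z‖ (norm_nonneg z)

theorem kjet_of_series (b : ℕ → ℂ) (hb : ∀ m, b m ∈ K) (h0 : b 0 = 0) (h1 : b 1 = 0)
    (hs : ∀ r : ℝ, 0 ≤ r → Summable fun m => ‖b m‖ * r ^ m) :
    KJet K (fun z => ∑' m, b m * z ^ m) := by
  refine ⟨ent hs, fun n => ?_⟩
  refine ⟨∑ m ∈ Finset.range (n + 1), Polynomial.monomial m (⟨b m, hb m⟩ : K), ?_, ?_,
    fun z => ∑' m, b (m + (n + 1)) * z ^ m, ent (shift hs (n + 1)), ?_⟩
  · rw [Polynomial.X_pow_dvd_iff]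
    intro d hd
    rw [Polynomial.finsetSum_coeff]
    apply Finset.sum_eq_zero
    intro m _
    rw [Polynomial.coeff_monomial]
    split_ifs with h
    · subst h
      have : b m = 0 := by
        interval_cases m
        · exact h0
        · exact h1
      exact Subtype.ext this
    · rfl
  · refine (Polynomial.natDegree_sum_le _ _).trans ?_
    rw [Finset.fold_max_le]
    refine ⟨by omega, fun m hm => ?_⟩
    have := Finset.mem_range.1 hm
    exact (Polynomial.natDegree_monomial_le _).trans (by omega)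
  · intro z
    have h2 := (summ hs z).sum_add_tsum_nat_add (n + 1)
    show ∑' m, b m * z ^ m = _
    rw [← h2]
    congr 1
    · rw [map_sum]
      apply Finset.sum_congr rfl
      intro m _
      rw [Polynomial.aeval_monomial]
      rfl
    · rw [← tsum_mul_left]
      apply tsum_congr
      intro m
      ring

private noncomputable def tt (g : ℕ → ℂ → ℂ) (Q W : ℕ → ℂ) : ℕ → ℂ
  | m => g m (Q m + ∑ k : Fin m, W (k + 1) * tt g Q W (m - (k + 1)))
  termination_by m => m
  decreasing_by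
    have := k.2
    omega

private theorem tt_eq (g : ℕ → ℂ → ℂ) (Q W : ℕ → ℂ) (m : ℕ) :
    tt g Q W m = g m (Q m + ∑ k : Fin m, W (k + 1) * tt g Q W (m - (k + 1))) := by
  rw [tt]

private theorem exists_t (hK : Dense (K : Set ℂ)) (Q W : ℕ → ℂ) (hW : W 0 ≠ 0) :
    ∃ t : ℕ → ℂ, (∀ m, ‖t m‖ ≤ 1 / (m.factorial : ℝ)) ∧
      ∀ m, Q m + ∑ p ∈ Finset.HasAntidiagonal.antidiagonal m, W p.1 * t p.2 ∈ K := by
  have h1 : ∀ (m : ℕ) (x : ℂ), ∃ t : ℂ, ‖t‖ ≤ 1 / (m.factorial : ℝ) ∧ x + W 0 * t ∈ K := by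
    intro m x
    have h0 : 0 < ‖W 0‖ := norm_pos_iff.2 hW
    have hf : (0 : ℝ) < 1 / (m.factorial : ℝ) := by positivity
    obtain ⟨κ, h2, h3⟩ := hK.exists_dist_lt x (mul_pos hf h0)
    refine ⟨(κ - x) / W 0, ?_, ?_⟩
    · rw [norm_div, div_le_iff₀ h0, ← dist_eq_norm, dist_comm]
      exact h3.le
    · rw [mul_div_cancel₀ _ hW]
      simpa using h2
  choose g hg1 hg2 using h1
  refine ⟨tt g Q W, fun m => ?_, fun m => ?_⟩
  · rw [tt_eq]
    exact hg1 _ _
  · have h3 := hg2 m (Q m + ∑ k : Fin m, W (k + 1) * tt g Q W (m - (k + 1)))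
    rw [← tt_eq g Q W m] at h3
    rw [Finset.Nat.sum_antidiagonal_eq_sum_range_succ (fun i j => W i * tt g Q W j),
      Nat.succ_eq_add_one, Finset.sum_range_succ', Finset.sum_range]
    simp only [Nat.sub_zero]
    rw [← add_assoc]
    exact h3

theorem exists_interp (hK : Dense (K : Set ℂ)) (S : Finset ℂ) (hS : (0 : ℂ) ∉ S) (c : ℂ → ℂ) :
    ∃ f : ℂ → ℂ, KJet K f ∧ ∀ s ∈ S, f s = c s := by
  classical
  set W : Polynomial ℂ := ∏ s ∈ S, (Polynomial.X - Polynomial.C s) with hWd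
  set Q : Polynomial ℂ := Lagrange.interpolate S id (fun s => c s / s ^ 2) with hQd
  have hW0 : W.coeff 0 ≠ 0 := by
    rw [Polynomial.coeff_zero_eq_eval_zero, hWd, Polynomial.eval_prod, Finset.prod_ne_zero_iff]
    intro s hs
    simp only [Polynomial.eval_sub, Polynomial.eval_X, Polynomial.eval_C, zero_sub, ne_eq,
      neg_eq_zero]
    rintro rfl
    exact hS hs
  obtain ⟨t, ht1, ht2⟩ := exists_t hK Q.coeff W.coeff hW0
  set a : ℕ → ℂ := fun m => Q.coeff m + ∑ p ∈ Finset.HasAntidiagonal.antidiagonal m, W.coeff p.1 * t p.2 with ha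
  -- summability
  have hpol : ∀ (A : Polynomial ℂ) (z : ℂ), Summable fun m => ‖A.coeff m * z ^ m‖ := by
    intro A z
    apply summable_of_ne_finset_zero (s := Finset.range (A.natDegree + 1))
    intro m hm
    rw [Polynomial.coeff_eq_zero_of_natDegree_lt (by simpa using hm)]
    simp
  have hpolv : ∀ (A : Polynomial ℂ) (z : ℂ), ∑' m, A.coeff m * z ^ m = A.eval z := by
    intro A z
    rw [tsum_eq_sum (s := Finset.range (A.natDegree + 1)), Polynomial.eval_eq_sum_range]
    intro m hm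
    rw [Polynomial.coeff_eq_zero_of_natDegree_lt (by simpa using hm)]
    simp
  have htn : ∀ z : ℂ, Summable fun m => ‖t m * z ^ m‖ := by
    intro z
    refine Summable.of_nonneg_of_le (fun m => norm_nonneg _) (fun m => ?_)
      (Real.summable_pow_div_factorial ‖z‖)
    rw [norm_mul, norm_pow]
    calc ‖t m‖ * ‖z‖ ^ m ≤ 1 / (m.factorial : ℝ) * ‖z‖ ^ m := by gcongr; exact ht1 m
      _ = ‖z‖ ^ m / m.factorial := by ring
  have hanti : ∀ (z : ℂ) (m : ℕ), ∑ p ∈ Finset.HasAntidiagonal.antidiagonal m, (W.coeff p.1 * z ^ p.1) *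
      (t p.2 * z ^ p.2) = (∑ p ∈ Finset.HasAntidiagonal.antidiagonal m, W.coeff p.1 * t p.2) * z ^ m := by
    intro z m
    rw [Finset.sum_mul]
    apply Finset.sum_congr rfl
    intro p hp
    rw [← Finset.HasAntidiagonal.mem_antidiagonal.1 hp, pow_add]
    ring
  have hc1 : ∀ z : ℂ, Summable fun m =>
      ‖(∑ p ∈ Finset.HasAntidiagonal.antidiagonal m, W.coeff p.1 * t p.2) * z ^ m‖ := by
    intro z
    have := summable_norm_sum_mul_antidiagonal_of_summable_norm (hpol W z) (htn z)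
    simpa only [hanti] using this
  have hc2 : ∀ z : ℂ, ∑' m, (∑ p ∈ Finset.HasAntidiagonal.antidiagonal m, W.coeff p.1 * t p.2) * z ^ m
      = W.eval z * ∑' m, t m * z ^ m := by
    intro z
    have := tsum_mul_tsum_eq_tsum_sum_antidiagonal_of_summable_norm (hpol W z) (htn z)
    rw [hpolv] at this
    rw [this]
    simp only [hanti]
  have has : ∀ r : ℝ, 0 ≤ r → Summable fun m => ‖a m‖ * r ^ m := by
    intro r hr
    refine Summable.of_nonneg_of_le (fun m => by positivity) (fun m => ?_)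
      ((hpol Q (r : ℂ)).add (hc1 (r : ℂ)))
    have e : (‖a m‖ * r ^ m : ℝ) = ‖a m * (r : ℂ) ^ m‖ := by
      rw [norm_mul, norm_pow, Complex.norm_real, Real.norm_of_nonneg hr]
    rw [e, ha]
    simp only [add_mul]
    exact norm_add_le _ _
  have hav : ∀ z : ℂ, ∑' m, a m * z ^ m = Q.eval z + W.eval z * ∑' m, t m * z ^ m := by
    intro z
    rw [← hpolv Q, ← hc2 z, ← ((hpol Q z).of_norm).tsum_add ((hc1 z).of_norm)]
    simp only [ha, add_mul]
  -- the coefficients
  set b : ℕ → ℂ := fun m => if m < 2 then 0 else a (m - 2) with hb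
  have hbK : ∀ m, b m ∈ K := by
    intro m
    simp only [hb]
    split_ifs
    · exact K.zero_mem
    · exact ht2 _
  have hbs : ∀ r : ℝ, 0 ≤ r → Summable fun m => ‖b m‖ * r ^ m := by
    intro r hr
    rw [← summable_nat_add_iff 2]
    have h2 := (has r hr).mul_right (r ^ 2)
    refine h2.congr (fun m => ?_)
    simp only [hb, if_neg (show ¬ (m + 2 < 2) by omega), Nat.add_sub_cancel]
    ring
  refine ⟨fun z => ∑' m, b m * z ^ m, kjet_of_series b hbK (by simp [hb]) (by simp [hb]) hbs, ?_⟩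
  intro s hs
  have hs0 : s ≠ 0 := by rintro rfl; exact hS hs
  have h3 := (summ hbs s).sum_add_tsum_nat_add 2
  show ∑' m, b m * s ^ m = c s
  rw [← h3]
  have h4 : ∀ m, b (m + 2) * s ^ (m + 2) = s ^ 2 * (a m * s ^ m) := by
    intro m
    simp only [hb, if_neg (show ¬ (m + 2 < 2) by omega), Nat.add_sub_cancel]
    ring
  simp only [h4]
  rw [tsum_mul_left, hav s]
  have h5 : W.eval s = 0 := by
    rw [hWd, Polynomial.eval_prod]
    apply Finset.prod_eq_zero hs
    simp
  have h6 : Q.eval s = c s / s ^ 2 := by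
    rw [hQd]
    exact Lagrange.eval_interpolate_at_node (s := S) (v := id) (fun s => c s / s ^ 2)
      (fun x _ y _ h => h) hs
  rw [h5, h6, Finset.sum_range_succ, Finset.sum_range_one]
  simp only [hb]
  simp
  field_simp

end Pool.Agent.AH
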