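import Pool.Agent.AH.Core
import Pool.Agent.AH.Hart

/-!
# AH-Inv: every automorphism of `Pt K τ d` preserves the open set `Om`
-/

set_option autoImplicit false

open Set Topology Filter
open scoped Manifold ContDiff

namespace Pool.Agent.AH

variable {K : Subfield ℂ} {τ : ℂ} {d : ℕ}

private theorem toE_zero (i : Idx K d) (v : Fin d → ℂ) : toE τ i ((0 : ℂ), v) = 0 := by
  have h : i.l + 1 ≠ 0 := by omega
  unfold toE
  simp only [P_zero, zero_pow h, zero_smul, add_zero]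
  rfl

private theorem J_eq_J0 (i : Idx K d) {x : E d} (h : x.1 ≠ 0) : J τ i x = J0 K τ (toE τ i x) := by
  rw [J_ne τ i h]
  have h1 : toE τ i x ≠ 0 := jet_ne_zero h _
  rw [J0_ne τ h1]
  rfl

private theorem tendsto_toE (i : Idx K d) (v : Fin d → ℂ) :
    Tendsto (fun z : ℂ => toE τ i (z, v)) (𝓝[≠] 0) (𝓝[≠] 0) := by
  rw [tendsto_nhdsWithin_iff]
  constructor
  · have hc : Continuous (fun z : ℂ => toE τ i (z, v)) :=
      (contDiff_toE τ i).continuous.comp (by fun_prop)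
    have h0 := hc.tendsto 0
    rw [toE_zero] at h0
    exact h0.mono_left nhdsWithin_le_nhds
  · filter_upwards [self_mem_nhdsWithin] with z hz
    exact jet_ne_zero (x := ((z, v) : E d)) hz _

theorem const_on_new (hd : 0 < d) {h : Pt K τ d → ℂ}
    (hh : ContMDiff 𝓘(ℂ, E d) 𝓘(ℂ, ℂ) (⊤ : WithTop ℕ∞) h) :
    ∃ L : ℂ, (∀ i v, h (Pt.new i v) = L) ∧ Tendsto (fun x => h (J0 K τ x)) (𝓝[≠] 0) (𝓝 L) := by
  have h1 : ContMDiffOn 𝓘(ℂ, E d) 𝓘(ℂ, ℂ) (⊤ : WithTop ℕ∞) (h ∘ J0 K τ) {0}ᶜ :=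
    hh.comp_contMDiffOn contMDiffOn_J0
  have h2 : DifferentiableOn ℂ (h ∘ J0 K τ) {0}ᶜ :=
    (contMDiffOn_iff_contDiffOn.1 h1).differentiableOn (by simp)
  obtain ⟨L, hL⟩ := hartogs_limit hd h2
  refine ⟨L, fun i v => ?_, hL⟩
  have h3 : Tendsto (fun z : ℂ => h (J0 K τ (toE τ i (z, v)))) (𝓝[≠] 0) (𝓝 L) :=
    hL.comp (tendsto_toE i v)
  have hc : Continuous (fun z : ℂ => h (J τ i (z, v))) :=
    hh.continuous.comp ((isOpenEmbedding_J i).continuous.comp (by fun_prop))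
  have h4 : Tendsto (fun z : ℂ => h (J τ i (z, v))) (𝓝[≠] 0) (𝓝 (h (Pt.new i v))) := by
    have h5 := hc.tendsto 0
    rw [J_zero] at h5
    exact h5.mono_left nhdsWithin_le_nhds
  have h6 : Tendsto (fun z : ℂ => h (J τ i (z, v))) (𝓝[≠] 0) (𝓝 L) := by
    refine h3.congr' ?_
    filter_upwards [self_mem_nhdsWithin] with z hz
    rw [J_eq_J0 (τ := τ) i (x := ((z, v) : E d)) hz]
  exact tendsto_nhds_unique h4 h6

private theorem cm_comp (φ : Aut K τ d) (ℓ : E d →L[ℂ] ℂ) :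
    ContMDiff 𝓘(ℂ, E d) 𝓘(ℂ, ℂ) (⊤ : WithTop ℕ∞) (fun p => ℓ (pr (φ p))) :=
  ℓ.contDiff.contMDiff.comp (contMDiff_pr.comp φ.contMDiff)

private theorem pr_eq (hd : 0 < d) (φ : Aut K τ d) (i i' : Idx K d) (v v' : Fin d → ℂ) :
    pr (φ (Pt.new i v)) = pr (φ (Pt.new i' v')) := by
  have key : ∀ ℓ : E d →L[ℂ] ℂ, ℓ (pr (φ (Pt.new i v))) = ℓ (pr (φ (Pt.new i' v'))) := by
    intro ℓ
    obtain ⟨L, hL, -⟩ := const_on_new hd (cm_comp φ ℓ)
    rw [hL i v, hL i' v']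
  refine Prod.ext ?_ ?_
  · exact key (ContinuousLinearMap.fst ℂ ℂ (Fin d → ℂ))
  · funext j
    exact key ((ContinuousLinearMap.proj j).comp (ContinuousLinearMap.snd ℂ ℂ (Fin d → ℂ)))

theorem map_new (hd : 0 < d) (φ : Aut K τ d) (i : Idx K d) (v : Fin d → ℂ) :
    ∃ j u, φ (Pt.new i v) = Pt.new j u := by
  rcases hφ : φ (Pt.new i v) with ⟨y, hy⟩ | ⟨j, u⟩
  · exfalso
    have h1 := pr_eq hd φ i i v (v + 1)
    rw [hφ] at h1
    have h2 : pr (φ (Pt.new i (v + 1))) = y := h1.symm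
    rcases hφ' : φ (Pt.new i (v + 1)) with ⟨y', hy'⟩ | ⟨j', u'⟩
    · rw [hφ'] at h2
      have h3 : y' = y := h2
      subst h3
      have h4 : φ (Pt.new i v) = φ (Pt.new i (v + 1)) := by rw [hφ, hφ']
      have h5 := φ.injective h4
      injection h5 with _ h6
      have h7 := congrFun h6 ⟨0, hd⟩
      simp at h7
    · rw [hφ'] at h2
      exact hy h2.symm
  · exact ⟨j, u, rfl⟩

theorem map_reg (hd : 0 < d) (φ : Aut K τ d) (x : E d) (hx : x ≠ 0) :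
    ∃ y hy, φ (Pt.reg x hx) = Pt.reg y hy := by
  rcases hφ : φ (Pt.reg x hx) with ⟨y, hy⟩ | ⟨j, u⟩
  · exact ⟨y, hy, rfl⟩
  · exfalso
    obtain ⟨j', u', h1⟩ := map_new hd φ.symm j u
    rw [← hφ, φ.symm_apply_apply] at h1
    cases h1

theorem tendsto_pr (hd : 0 < d) (φ : Aut K τ d) :
    Tendsto (fun x => pr (φ (J0 K τ x))) (𝓝[≠] 0) (𝓝 0) := by
  have hz : pr (φ (Pt.new (Idx.base K d) 0)) = 0 := by
    obtain ⟨j, u, h⟩ := map_new hd φ (Idx.base K d) 0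
    rw [h]
    rfl
  have key : ∀ ℓ : E d →L[ℂ] ℂ, Tendsto (fun x => ℓ (pr (φ (J0 K τ x)))) (𝓝[≠] 0) (𝓝 0) := by
    intro ℓ
    obtain ⟨L, hL, hT⟩ := const_on_new hd (cm_comp φ ℓ)
    have h1 : L = 0 := by
      rw [← hL (Idx.base K d) 0, hz, map_zero]
    rw [h1] at hT
    exact hT
  rw [Prod.tendsto_iff]
  constructor
  · exact key (ContinuousLinearMap.fst ℂ ℂ (Fin d → ℂ))
  · rw [tendsto_pi_nhds]
    intro j
    exact key ((ContinuousLinearMap.proj j).comp (ContinuousLinearMap.snd ℂ ℂ (Fin d → ℂ)))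

end Pool.Agent.AH
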