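import Mathlib

/-!
# AH-Jets: inverting a substitution modulo `X ^ (n + 1)`

`Z = X + X ^ 2 * _`.  The coefficients of `q'` are found one after the other, from the order `m = 2` on.
-/

set_option autoImplicit false

open Polynomial

namespace Pool.Agent.AH

private theorem subst_aux {F : Type} [Field F] (Z : F[X]) (hZ : X ^ 2 ∣ Z - X) (n : ℕ) :
    ∀ (d m : ℕ), n + 1 ≤ m + d → ∀ q : F[X], X ^ m ∣ q →
    ∃ q' : F[X], X ^ m ∣ q' ∧ q'.natDegree ≤ n ∧ X ^ (n + 1) ∣ q'.comp Z - q := by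
  obtain ⟨r, hr⟩ := hZ
  have hZu : Z = X * (1 + X * r) := by
    have h1 : Z = X ^ 2 * r + X := by rw [← hr, sub_add_cancel]
    rw [h1]
    ring
  have hbase : ∀ m : ℕ, n + 1 ≤ m → ∀ q : F[X], X ^ m ∣ q →
      ∃ q' : F[X], X ^ m ∣ q' ∧ q'.natDegree ≤ n ∧ X ^ (n + 1) ∣ q'.comp Z - q := by
    intro m hm q hq
    refine ⟨0, dvd_zero _, by rw [natDegree_zero]; exact Nat.zero_le _, ?_⟩
    rw [zero_comp, zero_sub, dvd_neg]
    exact (pow_dvd_pow X hm).trans hq
  intro d
  induction d with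
  | zero =>
    intro m hm q hq
    exact hbase m hm q hq
  | succ d ih =>
    intro m hm q hq
    rcases Nat.lt_or_ge n m with hmn | hmn
    · exact hbase m hmn q hq
    · obtain ⟨s, rfl⟩ := hq
      have h1 : X ^ (m + 1) ∣ X ^ m * s - C (s.coeff 0) * Z ^ m := by
        have h2 : X ^ m * s - C (s.coeff 0) * Z ^ m =
            X ^ m * (s - C (s.coeff 0) * (1 + X * r) ^ m) := by
          rw [hZu, mul_pow]
          ring
        rw [h2, pow_succ]
        refine mul_dvd_mul_left _ ?_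
        rw [X_dvd_iff, coeff_zero_eq_eval_zero]
        simp [coeff_zero_eq_eval_zero]
      obtain ⟨q'', h3, h4, h5⟩ := ih (m + 1) (by omega) _ h1
      refine ⟨C (s.coeff 0) * X ^ m + q'', ?_, ?_, ?_⟩
      · exact dvd_add (Dvd.intro_left _ rfl) ((pow_dvd_pow X (Nat.le_succ m)).trans h3)
      · exact natDegree_add_le_of_degree_le ((natDegree_C_mul_X_pow_le _ _).trans hmn) h4
      · have h6 : (C (s.coeff 0) * X ^ m + q'').comp Z - X ^ m * s =
            q''.comp Z - (X ^ m * s - C (s.coeff 0) * Z ^ m) := by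
          rw [add_comp, mul_comp, C_comp, pow_comp, X_comp]
          ring
        rw [h6]
        exact h5

theorem exists_subst {F : Type} [Field F] (Z : F[X]) (hZ : X ^ 2 ∣ Z - X) (n : ℕ) (q : F[X])
    (hq : X ^ 2 ∣ q) :
    ∃ q' : F[X], X ^ 2 ∣ q' ∧ q'.natDegree ≤ n ∧ X ^ (n + 1) ∣ q'.comp Z - q := by
  exact subst_aux Z hZ n (n + 1) 2 (by omega) q hq

end Pool.Agent.AH
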