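import Pool.Agent.AH.Conn
import Pool.Agent.AH.Haus

/-!
# AH-Lift: lifting automorphisms of `E d` to `Pt K τ d`

PLAN.  (1) `exists_map`: for `Φ` analytic, injective, `Φ 0 = 0`, `Lifts K τ Φ`, define `F : Pt → Pt` by
`F (Pt.reg x hx) = J0 K τ (Φ x)` and `F (Pt.new i v) = Pt.new i' (Ψ (0, v)).2` (choose `i', U, Ψ` by `choose`).
`F` is `ContMDiff`: at a regular point use `contMDiffAt_of_J0`: near `x` (off `0`) `F ∘ J0 K τ = J0 K τ ∘ Φ`,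
`Φ x ≠ 0` (injectivity), `contMDiffOn_J0`.  At an added point `(i, v)` use `contMDiffAt_of_J`: on the open
set `U` one has `F ∘ J τ i = J τ i' ∘ Ψ`: for `x ∈ U`, `x.1 ≠ 0`: `J τ i x = Pt.reg (x.1, ..) _`, and
`Φ (x.1, ..) = ((Ψ x).1, P τ i' (Ψ x).1 + (Ψ x).1 ^ (i'.l + 1) • (Ψ x).2)` with `(Ψ x).1 ≠ 0`, so
`J0 K τ (Φ ..) = J τ i' (Ψ x)` (`J_ne`, `J0_ne`); for `x.1 = 0`: `J τ i (0, v) = Pt.new i v` and
`(Ψ (0, v)).1 = 0`, so `J τ i' (Ψ (0, v)) = Pt.new i' (Ψ (0, v)).2`.  `Ψ` is `ContDiffOn` on the open set `U`,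
`contMDiff_J i'`.
(2) `exists_lift`: take `F` for `Φ` and `F'` for `Φ'`; `F' ∘ F = id` on `Om` (regular points), which is dense
(`dense_Om`), both are continuous and the space is Hausdorff (`t2Space`), so `F' ∘ F = id`; same for
`F ∘ F'`.  This gives the `Diffeomorph`.
-/

set_option autoImplicit false

open Set Topology Filter
open scoped Manifold ContDiff

namespace Pool.Agent.AH

variable {K : Subfield ℂ} {τ : ℂ} {d : ℕ}

theorem exists_map {Φ : E d → E d} (hΦ : ContDiff ℂ (⊤ : WithTop ℕ∞) Φ)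
    (hinj : Function.Injective Φ) (h0 : Φ 0 = 0) (hL : Lifts K τ Φ) :
    ∃ F : Pt K τ d → Pt K τ d, ContMDiff 𝓘(ℂ, E d) 𝓘(ℂ, E d) (⊤ : WithTop ℕ∞) F ∧
      ∀ x (hx : x ≠ 0), F (Pt.reg x hx) = J0 K τ (Φ x) := by
  choose ι U hU hU0 Ψ hΨ hΨ0 hΨ1 using hL
  let F : Pt K τ d → Pt K τ d := fun p => match p with
    | Pt.reg x _ => J0 K τ (Φ x)
    | Pt.new i v => Pt.new (ι i) (Ψ i (0, v)).2
  have hFr : ∀ x (hx : x ≠ 0), F (Pt.reg x hx) = J0 K τ (Φ x) := fun x hx => rfl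
  have hFn : ∀ i v, F (Pt.new i v) = Pt.new (ι i) (Ψ i (0, v)).2 := fun i v => rfl
  refine ⟨F, ?_, hFr⟩
  have hne : ∀ x, x ≠ 0 → Φ x ≠ 0 := fun x hx h => hx (hinj (h.trans h0.symm))
  have hF0 : ∀ x, x ≠ 0 → F (J0 K τ x) = J0 K τ (Φ x) := by
    intro x hx
    rw [J0_ne τ hx, hFr x hx]
  have hFJ : ∀ i, ∀ x ∈ U i, F (J τ i x) = J τ (ι i) (Ψ i x) := by
    intro i x hx
    rcases eq_or_ne x.1 0 with h | h
    · obtain ⟨z, v⟩ := x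
      obtain rfl : z = 0 := h
      rw [J_zero, hFn]
      have e : Ψ i (0, v) = (0, (Ψ i (0, v)).2) := Prod.ext (hΨ0 i v) rfl
      conv_rhs => rw [e]
      rw [J_zero]
    · obtain ⟨h1, h2⟩ := hΨ1 i x hx h
      rw [J_ne τ i h, hFr _ (jet_ne_zero h _), h2, J_ne τ (ι i) h1,
        J0_ne τ (jet_ne_zero h1 _)]
  rintro (⟨x, hx⟩ | ⟨i, v⟩)
  · apply contMDiffAt_of_J0 x hx
    have h1 : ContMDiffAt 𝓘(ℂ, E d) 𝓘(ℂ, E d) (⊤ : WithTop ℕ∞) (fun y => J0 K τ (Φ y)) x :=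
      (contMDiffOn_J0.contMDiffAt (isOpen_compl_singleton.mem_nhds (hne x hx))).comp x
        hΦ.contMDiff.contMDiffAt
    refine h1.congr_of_eventuallyEq ?_
    filter_upwards [isOpen_compl_singleton.mem_nhds hx] with y hy
    exact hF0 y hy
  · apply contMDiffAt_of_J i v
    have h1 : ContMDiffAt 𝓘(ℂ, E d) 𝓘(ℂ, E d) (⊤ : WithTop ℕ∞)
        (fun y => J τ (ι i) (Ψ i y)) (0, v) :=
      (contMDiff_J (ι i)).contMDiffAt.comp _
        ((hΨ i).contDiffAt ((hU i).mem_nhds (hU0 i v))).contMDiffAt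
    refine h1.congr_of_eventuallyEq ?_
    filter_upwards [(hU i).mem_nhds (hU0 i v)] with y hy
    exact hFJ i y hy

private theorem comp_eq (hd : 0 < d) (hτ : τ ∉ K) {Φ Φ' : E d → E d}
    (h : ∀ x, Φ' (Φ x) = x) (hne : ∀ x, x ≠ 0 → Φ x ≠ 0) {F F' : Pt K τ d → Pt K τ d}
    (hF : Continuous F) (hF' : Continuous F')
    (h1 : ∀ x (hx : x ≠ 0), F (Pt.reg x hx) = J0 K τ (Φ x))
    (h2 : ∀ x (hx : x ≠ 0), F' (Pt.reg x hx) = J0 K τ (Φ' x)) (p : Pt K τ d) :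
    F' (F p) = p := by
  have : T2Space (Pt K τ d) := t2Space hd hτ
  have e : (fun p => F' (F p)) = fun p => p := by
    apply Continuous.ext_on dense_Om (hF'.comp hF) continuous_id
    intro q hq
    obtain ⟨x, hx, rfl⟩ := (mem_Om_iff q).1 hq
    show F' (F (Pt.reg x hx)) = Pt.reg x hx
    rw [h1 x hx, J0_ne τ (hne x hx), h2, h x, J0_ne τ hx]
  exact congrFun e p

theorem exists_lift (hd : 0 < d) (hτ : τ ∉ K) (Φ : Equiv.Perm (E d))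
    (hΦ : ContDiff ℂ (⊤ : WithTop ℕ∞) Φ) (hΦ' : ContDiff ℂ (⊤ : WithTop ℕ∞) Φ.symm)
    (h0 : Φ 0 = 0) (hL : Lifts K τ Φ) (hL' : Lifts K τ Φ.symm) :
    ∃ φ : Aut K τ d, ∀ x (hx : x ≠ 0), φ (Pt.reg x hx) = J0 K τ (Φ x) := by
  have h0' : Φ.symm 0 = 0 := by
    rw [Equiv.symm_apply_eq, h0]
  obtain ⟨F, hF, hF1⟩ := exists_map hΦ Φ.injective h0 hL
  obtain ⟨F', hF', hF1'⟩ := exists_map hΦ' Φ.symm.injective h0' hL'
  have hne : ∀ x, x ≠ 0 → Φ x ≠ 0 := fun x hx h => hx (Φ.injective (h.trans h0.symm))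
  have hne' : ∀ x, x ≠ 0 → Φ.symm x ≠ 0 := fun x hx h =>
    hx (Φ.symm.injective (h.trans h0'.symm))
  exact ⟨⟨⟨F, F', comp_eq hd hτ Φ.symm_apply_apply hne hF.continuous hF'.continuous hF1 hF1',
    comp_eq hd hτ Φ.apply_symm_apply hne' hF'.continuous hF.continuous hF1' hF1⟩, hF, hF'⟩, hF1⟩

end Pool.Agent.AH
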