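import Pool.Agent.AH.Defs

/-!
# AH-ShA: the shears `(z, w) ↦ (z, w + f z)` lift

PLAN.  Given `i : Idx K d` of order `l`, take for each `c` the polynomial `T c` and the function `R c` of
`KJet` with `n = l`: `f c z = T c (z) + z ^ (l + 1) * R c z`.  `i'` has order `l` and `q c = i.q c + T c`
(divisible by `X ^ 2`, degree `≤ l`).  `U = univ`, `Ψ (z, v) = (z, fun c => v c + R c z)`; an identity of
functions (`smul`, `Pi` arithmetic).  `Ψ` is analytic: `Differentiable.contDiff` (functions of one complex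
variable) composed with projections, `contDiff_pi`.
-/

set_option autoImplicit false

open Set Topology
open scoped ContDiff

namespace Pool.Agent.AH

variable {K : Subfield ℂ} {τ : ℂ} {d : ℕ}

private theorem sha_zero {f : ℂ → ℂ} (hf : KJet K f) : f 0 = 0 := by
  obtain ⟨T, ⟨Q, hQ⟩, -, R, -, e⟩ := hf.2 0
  rw [e 0, hQ, map_mul, map_pow, Polynomial.aeval_X]
  simp

private theorem sha_fun {f : Fin d → ℂ → ℂ} (hf : ∀ j, Differentiable ℂ (f j)) :
    ContDiff ℂ (⊤ : WithTop ℕ∞) (fun x : E d => ((x.1, fun j => x.2 j + f j x.1) : E d)) := by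
  refine contDiff_fst.prodMk (contDiff_pi.2 fun j => ?_)
  exact ((contDiff_apply ℂ ℂ j).comp contDiff_snd).add ((hf j).contDiff.comp contDiff_fst)

private theorem sha_symm_eq (f : Fin d → ℂ → ℂ) :
    ((shA f).symm : E d → E d) = (shA (fun j z => -f j z) : E d → E d) := by
  funext x
  refine Prod.ext rfl (funext fun j => ?_)
  change x.2 j - f j x.1 = x.2 j + -f j x.1
  ring

theorem lifts_shA {f : Fin d → ℂ → ℂ} (hf : ∀ j, KJet K (f j)) : Lifts K τ (shA f) := by
  intro i
  choose T hT1 hT2 R hR e using fun j => (hf j).2 i.l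
  let i' : Idx K d := ⟨i.l, i.two_le, fun j => i.q j + T j, fun j => dvd_add (i.dvd j) (hT1 j),
    fun j => Polynomial.natDegree_add_le_of_degree_le (i.deg j) (hT2 j)⟩
  refine ⟨i', univ, isOpen_univ, fun v => mem_univ _, fun x => (x.1, fun j => x.2 j + R j x.1),
    (sha_fun hR).contDiffOn, fun v => rfl, fun x _ hx => ⟨hx, ?_⟩⟩
  refine Prod.ext rfl (funext fun j => ?_)
  change (Polynomial.aeval x.1 (i.q j) + τ * x.1 ^ i.l) + x.1 ^ (i.l + 1) * x.2 j + f j x.1 =
    (Polynomial.aeval x.1 (i.q j + T j) + τ * x.1 ^ i.l) +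
      x.1 ^ (i.l + 1) * (x.2 j + R j x.1)
  rw [e j x.1, map_add]
  ring

theorem lifts_shA_symm {f : Fin d → ℂ → ℂ} (hf : ∀ j, KJet K (f j)) : Lifts K τ (shA f).symm := by
  have h := lifts_shA (τ := τ) (f := fun j z => -f j z) fun j => (hf j).neg
  rw [← sha_symm_eq f] at h
  exact h

theorem contDiff_shA {f : Fin d → ℂ → ℂ} (hf : ∀ j, KJet K (f j)) :
    ContDiff ℂ (⊤ : WithTop ℕ∞) (shA f) ∧ ContDiff ℂ (⊤ : WithTop ℕ∞) (shA f).symm ∧
      shA f 0 = 0 := by
  refine ⟨sha_fun fun j => (hf j).1, ?_, ?_⟩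
  · rw [sha_symm_eq f]
    exact sha_fun fun j => (hf j).1.neg
  · refine Prod.ext rfl (funext fun j => ?_)
    change (0 : ℂ) + f j 0 = 0
    rw [sha_zero (hf j), add_zero]

end Pool.Agent.AH
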