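import Pool.Agent.AH.Defs
import Pool.Agent.AH.Jets

/-!
# AH-ShB: the shears `(z, w) ↦ (z + h (∑ a_j w_j), w)` lift

The computation takes place in the ring `sbA d` of the analytic functions of `x = (z, v)`, modulo powers of `z`.
-/

set_option autoImplicit false

open Set Topology
open scoped ContDiff

namespace Pool.Agent.AH

variable {K : Subfield ℂ} {τ : ℂ} {d : ℕ}

/-- the analytic functions on `E d` -/
private def sbA (d : ℕ) : Subalgebra ℂ (E d → ℂ) where
  carrier := {F | ContDiff ℂ (⊤ : WithTop ℕ∞) F}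
  mul_mem' := by
    intro F G h1 h2
    have h3 : ContDiff ℂ (⊤ : WithTop ℕ∞) F := h1
    have h4 : ContDiff ℂ (⊤ : WithTop ℕ∞) G := h2
    exact h3.mul h4
  add_mem' := by
    intro F G h1 h2
    have h3 : ContDiff ℂ (⊤ : WithTop ℕ∞) F := h1
    have h4 : ContDiff ℂ (⊤ : WithTop ℕ∞) G := h2
    exact h3.add h4
  algebraMap_mem' := by
    intro r
    have h : ContDiff ℂ (⊤ : WithTop ℕ∞) (fun _ : E d => r) := contDiff_const
    exact h

private theorem sbA_mem {F : E d → ℂ} : F ∈ sbA d ↔ ContDiff ℂ (⊤ : WithTop ℕ∞) F := Iff.rfl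

private theorem sbA_cd (F : sbA d) : ContDiff ℂ (⊤ : WithTop ℕ∞) F.1 := sbA_mem.1 F.2

/-- the coordinate `z` -/
private def sbz (d : ℕ) : sbA d := ⟨fun x => x.1, sbA_mem.2 contDiff_fst⟩

/-- the coordinates `v` -/
private def sbv (j : Fin d) : sbA d := ⟨fun x => x.2 j, sbA_mem.2 ((contDiff_apply ℂ ℂ j).comp contDiff_snd)⟩

/-- evaluation -/
private def sbev (x : E d) : sbA d →ₐ[ℂ] ℂ :=
  (Pi.evalAlgHom ℂ (fun _ : E d => ℂ) x).comp (sbA d).val

private theorem sbev_apply (x : E d) (F : sbA d) : sbev x F = F.1 x := rfl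

/-- composition with an entire function -/
private noncomputable def sbc (R : ℂ → ℂ) (hR : Differentiable ℂ R) (F : sbA d) : sbA d :=
  ⟨fun x => R (F.1 x), sbA_mem.2 (hR.contDiff.comp (sbA_cd F))⟩

/-- evaluation of a polynomial -/
private noncomputable def pe (T : Polynomial K) (F : sbA d) : sbA d :=
  Polynomial.aeval F (T.map (algebraMap K ℂ))

private theorem pe_apply (T : Polynomial K) (F : sbA d) (x : E d) :
    (pe T F).1 x = Polynomial.aeval (F.1 x) T := by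
  have h1 : (pe T F).1 x = sbev x (pe T F) := rfl
  rw [h1, pe, ← Polynomial.aeval_algHom_apply, sbev_apply, Polynomial.aeval_map_algebraMap]

private theorem pe_sub_dvd (T : Polynomial K) (F G : sbA d) : F - G ∣ pe T F - pe T G := by
  unfold pe
  rw [Polynomial.aeval_def, Polynomial.aeval_def, Polynomial.eval₂_eq_eval_map, Polynomial.eval₂_eq_eval_map]
  exact Polynomial.sub_dvd_eval_sub _ _ _

private theorem pe_mul (T S : Polynomial K) (F : sbA d) : pe (T * S) F = pe T F * pe S F := by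
  unfold pe
  rw [Polynomial.map_mul, map_mul]

private theorem pe_add (T S : Polynomial K) (F : sbA d) : pe (T + S) F = pe T F + pe S F := by
  unfold pe
  rw [Polynomial.map_add, map_add]

private theorem pe_sub (T S : Polynomial K) (F : sbA d) : pe (T - S) F = pe T F - pe S F := by
  unfold pe
  rw [Polynomial.map_sub, map_sub]

private theorem pe_X (F : sbA d) : pe (K := K) Polynomial.X F = F := by
  unfold pe
  rw [Polynomial.map_X, Polynomial.aeval_X]

private theorem pe_Xpow (n : ℕ) (F : sbA d) : pe (K := K) (Polynomial.X ^ n) F = F ^ n := by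
  unfold pe
  rw [Polynomial.map_pow, Polynomial.map_X, map_pow, Polynomial.aeval_X]

private theorem pe_comp (T S : Polynomial K) (F : sbA d) : pe (T.comp S) F = pe T (pe S F) := by
  unfold pe
  rw [Polynomial.map_comp, Polynomial.aeval_comp]

private theorem pe_dvd {T : Polynomial K} {n : ℕ} (h : Polynomial.X ^ n ∣ T) (F : sbA d) : F ^ n ∣ pe T F := by
  obtain ⟨T1, rfl⟩ := h
  rw [pe_mul, pe_Xpow]
  exact dvd_mul_right _ _

/-- the main divisibility for `T s - T S` -/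
private theorem pe_key {T : Polynomial K} (h : Polynomial.X ^ 2 ∣ T) {l : ℕ} {z s S : sbA d} (h1 : z ^ l ∣ s - S)
    (h2 : z ∣ s) (h3 : z ∣ S) : z ^ (l + 1) ∣ pe T s - pe T S := by
  obtain ⟨T1, rfl⟩ := h
  rw [pe_mul, pe_mul, pe_Xpow, pe_Xpow]
  have e : s ^ 2 * pe T1 s - S ^ 2 * pe T1 S =
      (s - S) * (s + S) * pe T1 s + S * (S * (pe T1 s - pe T1 S)) := by ring
  rw [e]
  refine dvd_add ?_ ?_
  · have h4 : z ^ l * z ∣ (s - S) * (s + S) := mul_dvd_mul h1 (dvd_add h2 h3)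
    rw [pow_succ]
    exact h4.mul_right _
  · have h4 : z ^ l ∣ pe T1 s - pe T1 S := h1.trans (pe_sub_dvd T1 s S)
    have h5 : z * z ^ l ∣ S * (S * (pe T1 s - pe T1 S)) := mul_dvd_mul h3 (h4.mul_left _)
    rw [pow_succ, mul_comm]
    exact h5

theorem lifts_shB {h : ℂ → ℂ} (hh : KJet K h) (a : Fin d → K) :
    Lifts K τ (shB h (fun j => (a j : ℂ))) := by
  intro i
  obtain ⟨T, hT, _, R, hR, hhT⟩ := hh.2 i.l
  set z : sbA d := sbz d with hz
  -- the functions `w j` and `s`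
  set w : Fin d → sbA d := fun j => pe (i.q j) z + τ • z ^ i.l + z ^ (i.l + 1) * sbv j with hw
  set s : sbA d := ∑ j, (a j : ℂ) • w j with hs
  set S : Polynomial K := ∑ j, Polynomial.C (a j) * i.q j with hS
  have hSdvd : Polynomial.X ^ 2 ∣ S := Finset.dvd_sum fun j _ => (i.dvd j).mul_left _
  have hSz : pe S z = ∑ j, (a j : ℂ) • pe (i.q j) z := by
    rw [hS]
    unfold pe
    rw [Polynomial.map_sum, map_sum]
    refine Finset.sum_congr rfl fun j _ => ?_
    rw [Polynomial.map_mul, Polynomial.map_C, map_mul, Polynomial.aeval_C, Algebra.smul_def]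
    rfl
  have hz2S : z ^ 2 ∣ pe S z := pe_dvd hSdvd z
  have hzS : z ∣ pe S z := (dvd_pow_self z two_ne_zero).trans hz2S
  have hsS : z ^ i.l ∣ s - pe S z := by
    rw [hSz, hs, ← Finset.sum_sub_distrib]
    refine Finset.dvd_sum fun j _ => ?_
    refine ⟨(a j : ℂ) • (algebraMap ℂ (sbA d) τ + z * sbv j), ?_⟩
    simp only [hw, Algebra.smul_def]
    ring
  have hzs : z ∣ s := by
    have h1 : z ∣ s - pe S z := (dvd_pow_self z (by have := i.two_le; omega)).trans hsS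
    have h2 := dvd_add h1 hzS
    rwa [sub_add_cancel] at h2
  -- H
  set H : sbA d := sbc h hh.1 s with hH
  have hHT : H = pe T s + s ^ (i.l + 1) * sbc R hR s := by
    apply Subtype.ext
    funext x
    show h (s.1 x) = (pe T s).1 x + (s.1 x) ^ (i.l + 1) * R (s.1 x)
    rw [pe_apply, hhT]
  have hz2H : z ^ 2 ∣ H := by
    rw [hHT]
    refine dvd_add ((pow_dvd_pow_of_dvd hzs 2).trans (pe_dvd hT s)) ?_
    refine Dvd.dvd.mul_right ?_ _
    exact (pow_dvd_pow_of_dvd hzs 2).trans (pow_dvd_pow s (by have := i.two_le; omega))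
  obtain ⟨B, hB⟩ := hz2H
  have hHS : z ^ (i.l + 1) ∣ H - pe T (pe S z) := by
    have e : H - pe T (pe S z) = (pe T s - pe T (pe S z)) + s ^ (i.l + 1) * sbc R hR s := by
      rw [hHT]
      ring
    rw [e]
    exact dvd_add (pe_key hT hsS hzs hzS) ((pow_dvd_pow_of_dvd hzs _).mul_right _)
  -- the substitution
  set Z₁ : Polynomial K := Polynomial.X + T.comp S with hZ₁
  have hZ₁X : Polynomial.X ^ 2 ∣ Z₁ - Polynomial.X := by
    rw [hZ₁, add_sub_cancel_left]
    obtain ⟨T1, rfl⟩ := hT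
    rw [Polynomial.mul_comp, Polynomial.X_pow_comp]
    refine Dvd.dvd.mul_right ?_ _
    exact hSdvd.trans (dvd_pow_self S two_ne_zero)
  choose q' hq'1 hq'2 hq'3 using fun j => exists_subst Z₁ hZ₁X i.l (i.q j) (i.dvd j)
  set Z : sbA d := z + H with hZ
  have hZZ₁ : z ^ (i.l + 1) ∣ pe Z₁ z - Z := by
    rw [hZ₁, pe_add, pe_X, pe_comp, hZ]
    have e : z + pe T (pe S z) - (z + H) = -(H - pe T (pe S z)) := by ring
    rw [e]
    exact (dvd_neg).2 hHS
  have hZB : Z = z * (1 + z * B) := by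
    rw [hZ, hB]
    ring
  have hN : ∀ c, ∃ N : sbA d, (pe (i.q c) z + τ • z ^ i.l) - (pe (q' c) Z + τ • Z ^ i.l) =
      z ^ (i.l + 1) * N := by
    intro c
    have h1 : z ^ (i.l + 1) ∣ pe (q' c) (pe Z₁ z) - pe (i.q c) z := by
      rw [← pe_comp, ← pe_sub]
      exact pe_dvd (hq'3 c) z
    have h2 : z ^ (i.l + 1) ∣ pe (q' c) (pe Z₁ z) - pe (q' c) Z := hZZ₁.trans (pe_sub_dvd _ _ _)
    have h3 : z ^ (i.l + 1) ∣ z ^ i.l - Z ^ i.l := by
      have e : z ^ i.l - Z ^ i.l = z ^ i.l * (1 ^ i.l - (1 + z * B) ^ i.l) := by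
        rw [hZB, mul_pow, one_pow]
        ring
      rw [e, pow_succ]
      refine mul_dvd_mul_left _ ?_
      refine dvd_trans ?_ (sub_dvd_pow_sub_pow _ _ _)
      refine ⟨-B, by ring⟩
    have h4 : z ^ (i.l + 1) ∣ (pe (i.q c) z + τ • z ^ i.l) - (pe (q' c) Z + τ • Z ^ i.l) := by
      have e : (pe (i.q c) z + τ • z ^ i.l) - (pe (q' c) Z + τ • Z ^ i.l) =
          (pe (q' c) (pe Z₁ z) - pe (q' c) Z) - (pe (q' c) (pe Z₁ z) - pe (i.q c) z) +
            τ • (z ^ i.l - Z ^ i.l) := by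
        rw [smul_sub]
        ring
      rw [e]
      refine dvd_add (dvd_sub h2 h1) ?_
      rw [Algebra.smul_def]
      exact h3.mul_left _
    exact h4
  choose N hN using hN
  have hBC : ContDiff ℂ (⊤ : WithTop ℕ∞) (fun x : E d => 1 + x.1 * B.1 x) :=
    contDiff_const.add (contDiff_fst.mul (sbA_cd B))
  refine ⟨⟨i.l, i.two_le, q', hq'1, hq'2⟩, {x | 1 + x.1 * B.1 x ≠ 0}, ?_, ?_,
    fun x => (x.1 * (1 + x.1 * B.1 x), fun c => ((N c).1 x + x.2 c) / (1 + x.1 * B.1 x) ^ (i.l + 1)), ?_, ?_, ?_⟩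
  · exact isOpen_ne_fun hBC.continuous continuous_const
  · intro v
    show (1 : ℂ) + 0 * B.1 (0, v) ≠ 0
    rw [zero_mul, add_zero]
    exact one_ne_zero
  · refine ContDiffOn.prodMk (contDiff_fst.mul hBC).contDiffOn ?_
    rw [contDiffOn_pi]
    intro c
    refine ContDiffOn.div ((sbA_cd (N c)).add (sbA_cd (sbv c))).contDiffOn (hBC.pow _).contDiffOn ?_
    intro x hx
    exact pow_ne_zero _ hx
  · intro v
    show (0 : ℂ) * _ = 0
    rw [zero_mul]
  · intro x hx hx1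
    have hx' : 1 + x.1 * B.1 x ≠ 0 := hx
    refine ⟨mul_ne_zero hx1 hx', ?_⟩
    have hsx : s.1 x = ∑ j, (a j : ℂ) * (P τ i x.1 j + x.1 ^ (i.l + 1) * x.2 j) := by
      have h1 : s.1 x = sbev x s := rfl
      rw [h1, hs, map_sum]
      refine Finset.sum_congr rfl fun j _ => ?_
      rw [map_smul, smul_eq_mul]
      congr 1
      show (pe (i.q j) z).1 x + τ • x.1 ^ i.l + x.1 ^ (i.l + 1) * x.2 j = _
      rw [pe_apply]
      rfl
    have hZx : Z.1 x = x.1 * (1 + x.1 * B.1 x) := by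
      rw [hZB]
      rfl
    have hZx2 : Z.1 x = x.1 + h (s.1 x) := rfl
    refine Prod.ext ?_ ?_
    · show x.1 + h (∑ j, (a j : ℂ) * (P τ i x.1 j + x.1 ^ (i.l + 1) * x.2 j)) = x.1 * (1 + x.1 * B.1 x)
      rw [← hZx, hZx2, hsx]
    · funext c
      show P τ i x.1 c + x.1 ^ (i.l + 1) * x.2 c =
        (Polynomial.aeval (x.1 * (1 + x.1 * B.1 x)) (q' c) + τ * (x.1 * (1 + x.1 * B.1 x)) ^ i.l) +
          (x.1 * (1 + x.1 * B.1 x)) ^ (i.l + 1) * (((N c).1 x + x.2 c) / (1 + x.1 * B.1 x) ^ (i.l + 1))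
      have h1 : ((pe (i.q c) z).1 x + τ * x.1 ^ i.l) - ((pe (q' c) Z).1 x + τ * (Z.1 x) ^ i.l) =
          x.1 ^ (i.l + 1) * (N c).1 x := congrArg (fun F : sbA d => F.1 x) (hN c)
      rw [pe_apply, pe_apply, hZx] at h1
      have h2 : (x.1 * (1 + x.1 * B.1 x)) ^ (i.l + 1) * (((N c).1 x + x.2 c) / (1 + x.1 * B.1 x) ^ (i.l + 1)) =
          x.1 ^ (i.l + 1) * ((N c).1 x + x.2 c) := by
        rw [mul_pow]
        field_simp
      rw [h2]
      have h3 : P τ i x.1 c = Polynomial.aeval x.1 (i.q c) + τ * x.1 ^ i.l := rfl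
      rw [h3]
      have h4 : Polynomial.aeval (z.1 x) (i.q c) = Polynomial.aeval x.1 (i.q c) := rfl
      rw [h4] at h1
      linear_combination h1

theorem lifts_shB_symm {h : ℂ → ℂ} (hh : KJet K h) (a : Fin d → K) :
    Lifts K τ (shB h (fun j => (a j : ℂ))).symm := by
  have e : ((shB h (fun j => (a j : ℂ))).symm : E d → E d) = shB (fun z => -h z) (fun j => (a j : ℂ)) := by
    funext x
    show (x.1 - h (∑ j, (a j : ℂ) * x.2 j), x.2) = (x.1 + -h (∑ j, (a j : ℂ) * x.2 j), x.2)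
    rw [sub_eq_add_neg]
  rw [e]
  exact lifts_shB hh.neg a

theorem contDiff_shB {h : ℂ → ℂ} (hh : KJet K h) (a : Fin d → K) :
    ContDiff ℂ (⊤ : WithTop ℕ∞) (shB h (fun j => (a j : ℂ))) ∧
      ContDiff ℂ (⊤ : WithTop ℕ∞) (shB h (fun j => (a j : ℂ))).symm ∧
      shB h (fun j => (a j : ℂ)) 0 = 0 := by
  have hs : ContDiff ℂ (⊤ : WithTop ℕ∞) (fun x : E d => ∑ j, (a j : ℂ) * x.2 j) :=
    ContDiff.sum fun j _ => contDiff_const.mul ((contDiff_apply ℂ ℂ j).comp contDiff_snd)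
  have hhs : ContDiff ℂ (⊤ : WithTop ℕ∞) (fun x : E d => h (∑ j, (a j : ℂ) * x.2 j)) :=
    hh.1.contDiff.comp hs
  refine ⟨(contDiff_fst.add hhs).prodMk contDiff_snd, (contDiff_fst.sub hhs).prodMk contDiff_snd, ?_⟩
  have h0 : h 0 = 0 := by
    obtain ⟨T, hT, _, R, _, hhT⟩ := hh.2 0
    obtain ⟨T1, rfl⟩ := hT
    rw [hhT 0]
    simp
  refine Prod.ext ?_ rfl
  show (0 : ℂ) + h (∑ j, (a j : ℂ) * 0) = 0
  simp [h0]

end Pool.Agent.AH
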