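import Pool.Agent.AH.Interp

/-!
# AH-Trans: the group generated by the shears is `k`-transitive on `E d` minus `0`

PLAN.  It is enough (`H` is a group) to send an injective family `x : Fin k → E d` of nonzero points to the
standard family `e_i = (i + 1, fun _ => i + 1)`.
(0) `exists_functional`: since `K ^ d` is dense there is `a : Fin d → K` with `∑ a_j u_j ≠ 0` for all `u` in a
given finite set of nonzero vectors (finite intersection of dense open sets meets the dense set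
`K ^ d`; or induction); use it for the vectors `(x i).2` and `(x i).2 - (x j).2` which are nonzero.
Put `λ w = ∑ a_j w_j`: it separates the `(x i).2` and is nonzero on the nonzero ones.
(1) `M = 2 * max ‖(x i).1‖ + 1`.  Choose an injective function `n : ℂ → ℕ` on the finite set of the values
`λ (x i).2 ≠ 0` with `n ≥ 1`, and `h` with `h s = M * n s` for these values (`exists_interp`).
After `shB h a` the first coordinates are `(x i).1 + M * n_i` (`n_i = 0` iff `(x i).2 = 0`; note `h 0 = 0`, from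
`KJet` with `n = 0`): pairwise distinct and nonzero (if `n_i ≠ n_j` the difference is at least
`M - 2 max > 0`; if `n_i = n_j` then `(x i).2 = (x j).2` and the first coordinates differ).
(2) now the first coordinates `z_i` are distinct and nonzero: choose `f j` with `f j (z_i) = (i + 1) - w_i j`:
after `shA f` the points are `(z_i, fun _ => i + 1)`.  (3) `shB h' (Pi.single j₀ 1)` (`j₀ = ⟨0, hd⟩`,
coefficients in `K`) with `h' (i + 1) = (i + 1) - z_i` sends them to `e_i`.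
-/

set_option autoImplicit false

open Set Topology Filter

namespace Pool.Agent.AH

variable {K : Subfield ℂ} {d : ℕ}

theorem exists_functional (hK : Dense (K : Set ℂ)) (F : Finset (Fin d → ℂ)) (hF : (0 : Fin d → ℂ) ∉ F) :
    ∃ a : Fin d → K, ∀ u ∈ F, ∑ j, (a j : ℂ) * u j ≠ 0 := by
  classical
  let p : (Fin d → ℂ) → Polynomial ℂ := fun u => ∑ j : Fin d, Polynomial.C (u j) * Polynomial.X ^ (j : ℕ)
  have hp : ∀ u : Fin d → ℂ, u ≠ 0 → p u ≠ 0 := by
    intro u hu h0
    apply hu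
    funext j
    have h1 := congrArg (fun q => Polynomial.coeff q (j : ℕ)) h0
    simp only [p, Polynomial.finsetSum_coeff, Polynomial.coeff_C_mul, Polynomial.coeff_X_pow,
      Polynomial.coeff_zero] at h1
    rw [Finset.sum_eq_single j] at h1
    · simpa using h1
    · intro b _ hb
      have hb' : ¬ ((j : ℕ) = (b : ℕ)) := fun e => hb (Fin.ext e.symm)
      simp [hb']
    · intro hj
      exact absurd (Finset.mem_univ j) hj
  have hprod : ∏ u ∈ F, p u ≠ 0 := by
    rw [Finset.prod_ne_zero_iff]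
    intro u hu
    exact hp u (fun e => hF (e ▸ hu))
  have hKinf : (K : Set ℂ).Infinite := by
    intro hfin
    have h1 : (K : Set ℂ) = univ := by
      have := hK.closure_eq
      rwa [hfin.isClosed.closure_eq] at this
    rw [h1] at hfin
    exact Set.infinite_univ hfin
  obtain ⟨t, htK, htr⟩ := hKinf.exists_notMem_finset (∏ u ∈ F, p u).roots.toFinset
  refine ⟨fun j => ⟨t, htK⟩ ^ (j : ℕ), fun u hu h0 => htr ?_⟩
  rw [Multiset.mem_toFinset, Polynomial.mem_roots hprod, Polynomial.IsRoot.def,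
    Polynomial.eval_prod, Finset.prod_eq_zero_iff]
  refine ⟨u, hu, ?_⟩
  simp only [p, Polynomial.eval_finsetSum, Polynomial.eval_mul, Polynomial.eval_C,
    Polynomial.eval_pow, Polynomial.eval_X]
  rw [← h0]
  refine Finset.sum_congr rfl fun j _ => ?_
  push_cast
  ring

private lemma kjet_zero {h : ℂ → ℂ} (hh : KJet K h) : h 0 = 0 := by
  obtain ⟨T, ⟨q, hq⟩, _, R, _, e⟩ := hh.2 0
  rw [e 0, hq]
  simp

private lemma fin_succ_inj (k : ℕ) : Function.Injective (fun i : Fin k => ((i : ℕ) : ℂ) + 1) := by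
  intro i j hij
  have h1 : ((i : ℕ) : ℂ) = ((j : ℕ) : ℂ) := add_right_cancel hij
  exact Fin.ext (by exact_mod_cast h1)

private lemma fin_succ_ne {k : ℕ} (i : Fin k) : ((i : ℕ) : ℂ) + 1 ≠ 0 := by
  exact_mod_cast Nat.succ_ne_zero (i : ℕ)

private lemma exists_interp_fin (hK : Dense (K : Set ℂ)) {k : ℕ} (z : Fin k → ℂ)
    (hz : Function.Injective z) (hz0 : ∀ i, z i ≠ 0) (c : Fin k → ℂ) :
    ∃ f : ℂ → ℂ, KJet K f ∧ ∀ i, f (z i) = c i := by
  classical
  obtain ⟨f, hf, hfS⟩ := exists_interp hK (Finset.univ.image z) (by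
    intro h0
    obtain ⟨i, _, hi⟩ := Finset.mem_image.mp h0
    exact hz0 i hi) (Function.extend z c 0)
  refine ⟨f, hf, fun i => ?_⟩
  rw [hfS _ (Finset.mem_image_of_mem z (Finset.mem_univ i)), hz.extend_apply]

private lemma exists_count (S : Finset ℂ) : ∃ n : ℂ → ℕ,
    (∀ s ∈ S, n s ≠ 0) ∧ ∀ s ∈ S, ∀ t ∈ S, n s = n t → s = t := by
  classical
  refine ⟨fun z => if h : z ∈ S then (S.equivFin ⟨z, h⟩ : ℕ) + 1 else 0, ?_, ?_⟩
  · intro s hs
    simp [hs]
  · intro s hs t ht hst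
    simp only [hs, ht, dif_pos] at hst
    have h1 : S.equivFin ⟨s, hs⟩ = S.equivFin ⟨t, ht⟩ := Fin.ext (by omega)
    have h2 := S.equivFin.injective h1
    exact congrArg Subtype.val h2

private lemma sep_step (hK : Dense (K : Set ℂ)) (H : Subgroup (Equiv.Perm (E d)))
    (hB : ∀ h : ℂ → ℂ, KJet K h → ∀ a : Fin d → K, shB h (fun j => (a j : ℂ)) ∈ H)
    {k : ℕ} (x : Fin k → E d) (hx : Function.Injective x) (hx0 : ∀ i, x i ≠ 0) :
    ∃ Φ ∈ H, Function.Injective (fun i => (Φ (x i)).1) ∧ ∀ i, (Φ (x i)).1 ≠ 0 := by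
  classical
  let F : Finset (Fin d → ℂ) := ((Finset.univ.image fun i => (x i).2) ∪
    (Finset.univ.image fun p : Fin k × Fin k => (x p.1).2 - (x p.2).2)).erase 0
  obtain ⟨a, ha⟩ := exists_functional hK F (Finset.notMem_erase _ _)
  let lam : (Fin d → ℂ) → ℂ := fun w => ∑ j, (a j : ℂ) * w j
  have hlam_sub : ∀ u v, lam (u - v) = lam u - lam v := by
    intro u v
    simp only [lam, Pi.sub_apply, mul_sub, Finset.sum_sub_distrib]
  let s : Fin k → ℂ := fun i => lam (x i).2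
  have hs0 : ∀ i, s i = 0 → (x i).2 = 0 := by
    intro i hi
    by_contra hne
    refine ha (x i).2 ?_ hi
    rw [Finset.mem_erase, Finset.mem_union]
    exact ⟨hne, Or.inl (Finset.mem_image_of_mem (fun i => (x i).2) (Finset.mem_univ i))⟩
  have hs1 : ∀ i j, s i = s j → (x i).2 = (x j).2 := by
    intro i j hij
    by_contra hne
    have h1 : (x i).2 - (x j).2 ≠ 0 := sub_ne_zero.mpr hne
    have h2 : lam ((x i).2 - (x j).2) ≠ 0 := by
      refine ha _ ?_
      rw [Finset.mem_erase, Finset.mem_union]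
      exact ⟨h1, Or.inr (Finset.mem_image_of_mem
        (fun p : Fin k × Fin k => (x p.1).2 - (x p.2).2) (Finset.mem_univ (i, j)))⟩
    rw [hlam_sub] at h2
    exact h2 (sub_eq_zero.mpr hij)
  obtain ⟨n, hn0, hn1⟩ := exists_count ((Finset.univ.image s).erase 0)
  let B : ℝ := ∑ i, ‖(x i).1‖
  have hB0 : ∀ i, ‖(x i).1‖ ≤ B := fun i =>
    Finset.single_le_sum (f := fun i => ‖(x i).1‖) (fun j _ => norm_nonneg _) (Finset.mem_univ i)
  let M : ℝ := 2 * B + 1
  obtain ⟨h, hh, hhS⟩ := exists_interp hK ((Finset.univ.image s).erase 0)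
    (Finset.notMem_erase _ _) (fun z => (M : ℂ) * (n z : ℂ))
  -- the integers attached to the points
  let m : Fin k → ℕ := fun i => if s i = 0 then 0 else n (s i)
  have hmem : ∀ i, s i ≠ 0 → s i ∈ (Finset.univ.image s).erase 0 := fun i hi =>
    Finset.mem_erase.mpr ⟨hi, Finset.mem_image_of_mem s (Finset.mem_univ i)⟩
  have hhm : ∀ i, h (s i) = (M : ℂ) * (m i : ℂ) := by
    intro i
    by_cases hi : s i = 0
    · simp only [m, hi, if_true]
      rw [kjet_zero hh]
      simp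
    · simp only [m, hi, if_false]
      exact hhS _ (hmem i hi)
  have hm0 : ∀ i, m i = 0 → s i = 0 := by
    intro i hi
    by_contra hne
    simp only [m, hne, if_false] at hi
    exact hn0 _ (hmem i hne) hi
  have hm1 : ∀ i j, m i = m j → s i = s j := by
    intro i j hij
    by_cases hi : s i = 0
    · have h1 : m i = 0 := by simp [m, hi]
      rw [h1] at hij
      rw [hi, hm0 j hij.symm]
    · by_cases hj : s j = 0
      · have h1 : m j = 0 := by simp [m, hj]
        rw [h1] at hij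
        exact absurd (hm0 i hij) hi
      · simp only [m, hi, hj, if_false] at hij
        exact hn1 _ (hmem i hi) _ (hmem j hj) hij
  have hΦ : ∀ i, (shB h (fun j => (a j : ℂ)) (x i)).1 = (x i).1 + (M : ℂ) * (m i : ℂ) := by
    intro i
    rw [← hhm]
    rfl
  have hBnn : 0 ≤ B := Finset.sum_nonneg fun i _ => norm_nonneg _
  have hMpos : 0 < M := by simp only [M]; linarith
  refine ⟨shB h (fun j => (a j : ℂ)), hB h hh a, ?_, ?_⟩
  · intro i j hij
    simp only [hΦ] at hij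
    have h1 : (x i).1 - (x j).1 = (M : ℂ) * (((m j : ℤ) - (m i : ℤ) : ℤ) : ℂ) := by
      push_cast
      linear_combination hij
    have h2 : m i = m j := by
      by_contra hne
      have h3 : (1 : ℝ) ≤ |(((m j : ℤ) - (m i : ℤ) : ℤ) : ℝ)| := by
        have h4 : (m j : ℤ) - (m i : ℤ) ≠ 0 := by omega
        have h5 := Int.one_le_abs h4
        exact_mod_cast h5
      have h6 : ‖(x i).1 - (x j).1‖ = M * |(((m j : ℤ) - (m i : ℤ) : ℤ) : ℝ)| := by
        rw [h1, norm_mul, Complex.norm_real, Real.norm_eq_abs, abs_of_pos hMpos,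
          Complex.norm_intCast]
      have h7 : ‖(x i).1 - (x j).1‖ ≤ ‖(x i).1‖ + ‖(x j).1‖ := norm_sub_le _ _
      have h8 : M * 1 ≤ M * |(((m j : ℤ) - (m i : ℤ) : ℤ) : ℝ)| :=
        mul_le_mul_of_nonneg_left h3 hMpos.le
      have h9 := hB0 i
      have h10 := hB0 j
      simp only [M] at h6 h8
      linarith
    have h11 := hs1 i j (hm1 i j h2)
    rw [h2] at hij
    have h12 : (x i).1 = (x j).1 := add_right_cancel hij
    exact hx (Prod.ext h12 h11)
  · intro i hi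
    rw [hΦ] at hi
    have h1 : (x i).1 = -((M : ℂ) * (m i : ℂ)) := eq_neg_of_add_eq_zero_left hi
    have h2 : m i = 0 := by
      by_contra hne
      have h3 : (1 : ℝ) ≤ (m i : ℝ) := by
        exact_mod_cast Nat.one_le_iff_ne_zero.mpr hne
      have h6 : ‖(x i).1‖ = M * (m i : ℝ) := by
        rw [h1, norm_neg, norm_mul, Complex.norm_real, Real.norm_eq_abs, abs_of_pos hMpos,
          Complex.norm_natCast]
      have h8 : M * 1 ≤ M * (m i : ℝ) := mul_le_mul_of_nonneg_left h3 hMpos.le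
      have h9 := hB0 i
      simp only [M] at h6 h8
      linarith
    have h13 := hs0 i (hm0 i h2)
    apply hx0 i
    refine Prod.ext ?_ h13
    rw [h1, h2]
    simp

private lemma to_std (hd : 0 < d) (hK : Dense (K : Set ℂ)) (H : Subgroup (Equiv.Perm (E d)))
    (hA : ∀ f : Fin d → ℂ → ℂ, (∀ j, KJet K (f j)) → shA f ∈ H)
    (hB : ∀ h : ℂ → ℂ, KJet K h → ∀ a : Fin d → K, shB h (fun j => (a j : ℂ)) ∈ H)
    {k : ℕ} (x : Fin k → E d) (hx : Function.Injective x) (hx0 : ∀ i, x i ≠ 0) :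
    ∃ Φ ∈ H, ∀ i, Φ (x i) = (((i : ℕ) : ℂ) + 1, fun _ => ((i : ℕ) : ℂ) + 1) := by
  classical
  obtain ⟨Φ₁, hΦ₁, hinj, hne⟩ := sep_step hK H hB x hx hx0
  have hf : ∀ j : Fin d, ∃ f : ℂ → ℂ, KJet K f ∧
      ∀ i : Fin k, f (Φ₁ (x i)).1 = (((i : ℕ) : ℂ) + 1) - (Φ₁ (x i)).2 j := fun j =>
    exists_interp_fin hK (fun i => (Φ₁ (x i)).1) hinj hne
      (fun i => (((i : ℕ) : ℂ) + 1) - (Φ₁ (x i)).2 j)
  choose f hf1 hf2 using hf
  obtain ⟨g, hg1, hg2⟩ := exists_interp_fin hK (fun i : Fin k => ((i : ℕ) : ℂ) + 1)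
    (fin_succ_inj k) (fun i => fin_succ_ne i)
    (fun i => (((i : ℕ) : ℂ) + 1) - (Φ₁ (x i)).1)
  let j₀ : Fin d := ⟨0, hd⟩
  let b : Fin d → K := fun j => if j = j₀ then 1 else 0
  have hb : ∀ w : Fin d → ℂ, ∑ j, ((b j : K) : ℂ) * w j = w j₀ := by
    intro w
    rw [Finset.sum_eq_single j₀]
    · simp [b]
    · intro j _ hj
      simp [b, hj]
    · intro hj
      exact absurd (Finset.mem_univ j₀) hj
  refine ⟨shB g (fun j => (b j : ℂ)) * (shA f * Φ₁),
    H.mul_mem (hB g hg1 b) (H.mul_mem (hA f hf1) hΦ₁), fun i => ?_⟩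
  rw [Equiv.Perm.mul_apply, Equiv.Perm.mul_apply]
  have h1 : shA f (Φ₁ (x i)) = ((Φ₁ (x i)).1, fun _ => ((i : ℕ) : ℂ) + 1) := by
    show ((Φ₁ (x i)).1, fun j => (Φ₁ (x i)).2 j + f j (Φ₁ (x i)).1) = _
    refine Prod.ext rfl ?_
    funext j
    show (Φ₁ (x i)).2 j + f j (Φ₁ (x i)).1 = _
    rw [hf2]
    ring
  rw [h1]
  show ((Φ₁ (x i)).1 + g (∑ j, ((b j : K) : ℂ) * (((i : ℕ) : ℂ) + 1)),
    fun _ : Fin d => ((i : ℕ) : ℂ) + 1) = _
  rw [hb (fun _ => ((i : ℕ) : ℂ) + 1)]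
  refine Prod.ext ?_ rfl
  show (Φ₁ (x i)).1 + g (((i : ℕ) : ℂ) + 1) = ((i : ℕ) : ℂ) + 1
  rw [hg2]
  ring

theorem k_transitive (hd : 0 < d) (hK : Dense (K : Set ℂ)) (H : Subgroup (Equiv.Perm (E d)))
    (hA : ∀ f : Fin d → ℂ → ℂ, (∀ j, KJet K (f j)) → shA f ∈ H)
    (hB : ∀ h : ℂ → ℂ, KJet K h → ∀ a : Fin d → K, shB h (fun j => (a j : ℂ)) ∈ H)
    {k : ℕ} (x y : Fin k → E d) (hx : Function.Injective x) (hy : Function.Injective y)
    (hx0 : ∀ i, x i ≠ 0) (hy0 : ∀ i, y i ≠ 0) : ∃ Φ ∈ H, ∀ i, Φ (x i) = y i := by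
  obtain ⟨Φ, hΦ, h1⟩ := to_std hd hK H hA hB x hx hx0
  obtain ⟨Ψ, hΨ, h2⟩ := to_std hd hK H hA hB y hy hy0
  refine ⟨Ψ⁻¹ * Φ, H.mul_mem (H.inv_mem hΨ) hΦ, fun i => ?_⟩
  rw [Equiv.Perm.mul_apply, h1, ← h2]
  exact Ψ.symm_apply_apply (y i)

end Pool.Agent.AH
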