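import Pool.Agent.AH.Disc
import Pool.Agent.AH.Lift
import Pool.Agent.AH.ShA
import Pool.Agent.AH.ShB
import Pool.Agent.AH.Trans

/-!
# AH-Main: transitivity of the automorphism group of `Pt K τ d` on `Om`
-/

set_option autoImplicit false

open Set Topology Filter
open scoped Manifold ContDiff

namespace Pool.Agent.AH

variable {K : Subfield ℂ} {τ : ℂ} {d : ℕ}

/-- `Φ` is induced by the automorphism `φ` -/
def LiftOf (φ : Aut K τ d) (Φ : Equiv.Perm (E d)) : Prop :=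
  ∀ x (hx : x ≠ 0), φ (Pt.reg x hx) = J0 K τ (Φ x)

theorem LiftOf.ne_zero (hd : 0 < d) {φ : Aut K τ d} {Φ : Equiv.Perm (E d)} (h : LiftOf φ Φ)
    {x : E d} (hx : x ≠ 0) : Φ x ≠ 0 := by
  intro h0
  have h1 := h x hx
  obtain ⟨y, hy, e⟩ := map_reg hd φ x hx
  rw [e, h0] at h1
  simp [J0] at h1

theorem LiftOf.mul (hd : 0 < d) {φ ψ : Aut K τ d} {Φ Ψ : Equiv.Perm (E d)} (h : LiftOf φ Φ)
    (h' : LiftOf ψ Ψ) : LiftOf (ψ.trans φ) (Φ * Ψ) := by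
  intro x hx
  change φ (ψ (Pt.reg x hx)) = J0 K τ (Φ (Ψ x))
  rw [h' x hx, J0_ne τ (h'.ne_zero hd hx), h _ (h'.ne_zero hd hx)]

theorem LiftOf.inv (hd : 0 < d) {φ : Aut K τ d} {Φ : Equiv.Perm (E d)} (h : LiftOf φ Φ) :
    LiftOf φ.symm Φ⁻¹ := by
  intro x hx
  obtain ⟨y, hy, e⟩ := map_reg hd φ.symm x hx
  have h1 : φ (Pt.reg y hy) = Pt.reg x hx := by
    rw [← e]
    exact φ.apply_symm_apply _
  have h2 := h y hy
  have h3 := h.ne_zero hd hy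
  rw [h1, J0_ne τ h3] at h2
  have h4 : x = Φ y := congrArg pr h2
  have h5 : Φ⁻¹ x = y := by
    rw [h4]
    exact Φ.symm_apply_apply y
  rw [e, h5, J0_ne τ hy]

theorem exists_liftSubgroup (hd : 0 < d) (hτ : τ ∉ K) : ∃ H : Subgroup (Equiv.Perm (E d)),
    (∀ Φ ∈ H, ∃ φ : Aut K τ d, ∀ x (hx : x ≠ 0), φ (Pt.reg x hx) = J0 K τ (Φ x)) ∧
    (∀ f : Fin d → ℂ → ℂ, (∀ j, KJet K (f j)) → shA f ∈ H) ∧
    (∀ h : ℂ → ℂ, KJet K h → ∀ a : Fin d → K, shB h (fun j => (a j : ℂ)) ∈ H) := by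
  refine ⟨{ carrier := {Φ | ∃ φ : Aut K τ d, LiftOf φ Φ}
            mul_mem' := ?_
            one_mem' := ?_
            inv_mem' := ?_ }, fun Φ hΦ => hΦ, ?_, ?_⟩
  · rintro Φ Ψ ⟨φ, h⟩ ⟨ψ, h'⟩
    exact ⟨ψ.trans φ, h.mul hd h'⟩
  · refine ⟨Diffeomorph.refl _ _ _, fun x hx => ?_⟩
    change Pt.reg x hx = J0 K τ x
    rw [J0_ne τ hx]
  · rintro Φ ⟨φ, h⟩
    exact ⟨φ.symm, h.inv hd⟩
  · intro f hf
    obtain ⟨h1, h2, h3⟩ := contDiff_shA hf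
    exact exists_lift hd hτ (shA f) h1 h2 h3 (lifts_shA hf) (lifts_shA_symm hf)
  · intro h hh a
    obtain ⟨h1, h2, h3⟩ := contDiff_shB hh a
    exact exists_lift hd hτ (shB h (fun j => (a j : ℂ))) h1 h2 h3 (lifts_shB hh a)
      (lifts_shB_symm hh a)

theorem k_trans_Om (hd : 0 < d) (hK : Dense (K : Set ℂ)) (hτ : τ ∉ K) {k : ℕ}
    (x y : Fin k → Pt K τ d) (hx : Function.Injective x) (hy : Function.Injective y)
    (hx0 : ∀ i, x i ∈ Om K τ d) (hy0 : ∀ i, y i ∈ Om K τ d) : ∃ φ : Aut K τ d, ∀ i, φ (x i) = y i := by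
  obtain ⟨H, hH, hA, hB⟩ := exists_liftSubgroup (τ := τ) hd hτ
  have key : ∀ x : Fin k → Pt K τ d, Function.Injective x → (∀ i, x i ∈ Om K τ d) →
      Function.Injective fun i => pr (x i) := by
    intro x hx hx0 i j hij
    apply hx
    obtain ⟨u, hu, e⟩ := (mem_Om_iff _).1 (hx0 i)
    obtain ⟨v, hv, e'⟩ := (mem_Om_iff _).1 (hx0 j)
    have hij' : pr (x i) = pr (x j) := hij
    rw [e, e'] at hij'
    have : u = v := hij'
    subst this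
    rw [e, e']
  obtain ⟨Φ, hΦ, h1⟩ := k_transitive hd hK H hA hB (fun i => pr (x i)) (fun i => pr (y i))
    (key x hx hx0) (key y hy hy0) hx0 hy0
  obtain ⟨φ, hφ⟩ := hH Φ hΦ
  refine ⟨φ, fun i => ?_⟩
  obtain ⟨u, hu, e⟩ := (mem_Om_iff _).1 (hx0 i)
  obtain ⟨v, hv, e'⟩ := (mem_Om_iff _).1 (hy0 i)
  have h2 := h1 i
  simp only [e, e'] at h2
  rw [e, e', hφ u hu]
  change Φ u = v at h2
  rw [h2, J0_ne τ hv]

theorem image_Om (hd : 0 < d) (φ : Aut K τ d) : φ '' Om K τ d = Om K τ d := by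
  apply Subset.antisymm
  · rintro _ ⟨p, hp, rfl⟩
    obtain ⟨x, hx, rfl⟩ := (mem_Om_iff p).1 hp
    obtain ⟨y, hy, e⟩ := map_reg hd φ x hx
    rw [e]
    exact mem_Om_reg y hy
  · intro p hp
    obtain ⟨x, hx, rfl⟩ := (mem_Om_iff p).1 hp
    obtain ⟨y, hy, e⟩ := map_reg hd φ.symm x hx
    refine ⟨φ.symm (Pt.reg x hx), ?_, φ.apply_symm_apply _⟩
    rw [e]
    exact mem_Om_reg y hy

end Pool.Agent.AH
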