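import Pool.Agent.AH.Defs

/-!
# AH-RigA: the analytic rigidity lemma

PLAN.  Fix `a : Fin d → K` and `j ∈ {2, 3}`; `γ z = (z, a z ^ j)` (vector `a`).  CLAIM: for all `z ≠ 0`
`(g (γ z)).2 = (g (γ z)).1 ^ j • a`.  Proof: for each `l ≥ 3` let `i : Idx K d` have order `l` and
`q c = C (a c) * X ^ j`; `P τ i z c = a c * z ^ j + τ * z ^ l`.  Write `c z = (z, P τ i z)`.
(i) `z ↦ (g (c z)).1` (value `0` at `0`) is continuous at `0` (`hlim`, `c z → 0`, `c z ≠ 0`), complex
differentiable off `0`, hence entire (`Complex.differentiableOn_compl_singleton_and_continuousAt_iff` or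
the removable singularity theorem), so it is `O(z)` at `0`.  (ii) `g (c z) - g (γ z) = O(z ^ l)`: by `hlim`
there are `r, M > 0` with `‖g x‖ ≤ M` for `0 < ‖x‖ < r`; for `z ≠ 0` small the function
`s ↦ g (z, fun c => a c * z ^ j + s)` is entire and bounded by `M` on `‖s‖ < r / 2`, so it differs from
its value at `s = 0` by at most `(4 M / r) * ‖s‖` (Schwarz lemma,
`Complex.dist_le_div_mul_dist_of_mapsTo_ball`, or Cauchy estimate + mean value); take `s = τ z ^ l`.
(iii) by `hb`, (i), (ii): `F z = (g (γ z)).2 - (g (γ z)).1 ^ j • a` is `O(z ^ l)` for every `l ≥ 3`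
(the term `τ (g (c z)).1 ^ l` is `O(z ^ l)` by (i); `u ^ j - v ^ j = (u - v) * bounded`).
`F` is complex differentiable off `0`, bounded near `0`, so it extends to an entire function which
vanishes to all orders at `0`: it is zero (`AnalyticAt.eventually_eq_zero_or...`, or: an analytic function
which is not eventually zero is `z ^ n • h z` with `h 0 ≠ 0`, `AnalyticAt.exists_eventuallyEq_pow_smul...`,
contradiction with `O(z ^ (n + 1))`; then the identity theorem on the plane).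
Then for fixed `z ≠ 0` both sides are continuous in `a ∈ ℂ^d` and agree on the dense set `K^d`, so
`(g (z, z ^ j • a)).2 = (g (z, z ^ j • a)).1 ^ j • a` for all `a : Fin d → ℂ` and `z ≠ 0`.  With
`a = (z ^ j)⁻¹ • w`: `(g (z, w)).2 = ((g (z, w)).1 / z) ^ j • w`, `j = 2, 3`.  If `w ≠ 0` then
`t = (g (z, w)).1 / z` satisfies `t ^ 2 = t ^ 3`, so `t = 0` or `t = 1`; `t = 0` gives `g (z, w) = 0`, against
`h0`.  So `g (z, w) = (z, w)` for `z ≠ 0`, `w ≠ 0`; by continuity for all `x ≠ 0` (the set is dense: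
`d ≥ 1`).
-/

set_option autoImplicit false

open Set Topology Filter Asymptotics

namespace Pool.Agent.AH

variable {K : Subfield ℂ} {τ : ℂ} {d : ℕ}

section
variable {V : Type} [NormedAddCommGroup V] [NormedSpace ℂ V] [CompleteSpace V]

private theorem ra_ext {F : ℂ → V} (hF : ∀ z, z ≠ 0 → DifferentiableAt ℂ F z)
    (h0 : Tendsto F (𝓝[≠] 0) (𝓝 0)) : Differentiable ℂ (Function.update F 0 0) := by
  have h1 : DifferentiableOn ℂ (Function.update F 0 0) (univ \ {0}) := by
    intro z hz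
    have hz0 : z ≠ 0 := hz.2
    have h2 : Function.update F 0 0 =ᶠ[𝓝 z] F := by
      filter_upwards [isOpen_compl_singleton.mem_nhds (x := z) hz0] with y hy
      exact Function.update_of_ne hy _ _
    exact ((hF z hz0).congr_of_eventuallyEq h2).differentiableWithinAt
  have h2 : ContinuousAt (Function.update F 0 0) 0 := by
    rw [continuousAt_update_same]
    exact h0
  have h3 := (Complex.differentiableOn_compl_singleton_and_continuousAt_iff
    (f := Function.update F 0 0) (s := univ) (c := 0) univ_mem).1 ⟨h1, h2⟩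
  exact differentiableOn_univ.1 h3

private theorem ra_lin {f : ℂ → ℂ} (hf : ∀ z, z ≠ 0 → DifferentiableAt ℂ f z)
    (h0 : Tendsto f (𝓝[≠] 0) (𝓝 0)) : f =O[𝓝[≠] (0 : ℂ)] fun z : ℂ => z := by
  have h1 := (ra_ext hf h0 0).isBigO_sub
  rw [Function.update_self] at h1
  have h2 := h1.mono (nhdsWithin_le_nhds (s := {(0 : ℂ)}ᶜ))
  refine (h2.congr' ?_ ?_)
  · filter_upwards [self_mem_nhdsWithin] with z hz
    rw [Function.update_of_ne hz, sub_zero]
  · exact Eventually.of_forall fun z => by simp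

private theorem ra_van {F : ℂ → V} (hF : ∀ z, z ≠ 0 → DifferentiableAt ℂ F z)
    (hO : ∀ l : ℕ, 3 ≤ l → F =O[𝓝[≠] (0 : ℂ)] fun z : ℂ => z ^ l) : ∀ z, z ≠ 0 → F z = 0 := by
  have hpow : ∀ m : ℕ, 1 ≤ m → Tendsto (fun z : ℂ => z ^ m) (𝓝[≠] 0) (𝓝 0) := by
    intro m hm
    have h1 : Tendsto (fun z : ℂ => z ^ m) (𝓝 0) (𝓝 (0 ^ m)) := (continuous_pow m).tendsto 0
    rw [zero_pow (by omega)] at h1
    exact h1.mono_left nhdsWithin_le_nhds
  have h0 : Tendsto F (𝓝[≠] 0) (𝓝 0) := (hO 3 le_rfl).trans_tendsto (hpow 3 (by norm_num))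
  have hd := ra_ext hF h0
  set G := Function.update F 0 0 with hG
  have hGF : ∀ z, z ≠ 0 → G z = F z := fun z hz => Function.update_of_ne hz _ _
  have hA : AnalyticOnNhd ℂ G univ := hd.differentiableOn.analyticOnNhd isOpen_univ
  have hev : ∀ᶠ z in 𝓝 (0 : ℂ), G z = 0 := by
    by_contra hcon
    obtain ⟨n, h, hh, hh0, hev⟩ :=
      ((hA 0 (mem_univ _)).exists_eventuallyEq_pow_smul_nonzero_iff).2 hcon
    have h1 : (fun z : ℂ => z ^ n • h z) =O[𝓝[≠] (0 : ℂ)] fun z : ℂ => z ^ (n + 3) := by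
      refine (hO (n + 3) (by omega)).congr' ?_ EventuallyEq.rfl
      filter_upwards [self_mem_nhdsWithin, nhdsWithin_le_nhds hev] with z hz hz2
      rw [← hGF z hz, hz2, sub_zero]
    have h2 : h =O[𝓝[≠] (0 : ℂ)] fun z : ℂ => z ^ 3 := by
      obtain ⟨C, hC⟩ := h1.bound
      refine IsBigO.of_bound C ?_
      filter_upwards [hC, self_mem_nhdsWithin] with z hz hz0
      have h3 : 0 < ‖z ^ n‖ := norm_pos_iff.2 (pow_ne_zero n hz0)
      rw [norm_smul, pow_add, norm_mul] at hz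
      have h4 : ‖z ^ n‖ * ‖h z‖ ≤ ‖z ^ n‖ * (C * ‖z ^ 3‖) := by
        calc ‖z ^ n‖ * ‖h z‖ ≤ C * (‖z ^ n‖ * ‖z ^ 3‖) := hz
          _ = ‖z ^ n‖ * (C * ‖z ^ 3‖) := by ring
      exact le_of_mul_le_mul_left h4 h3
    have h3 : Tendsto h (𝓝[≠] 0) (𝓝 0) := h2.trans_tendsto (hpow 3 (by norm_num))
    have h4 : Tendsto h (𝓝[≠] 0) (𝓝 (h 0)) := hh.continuousAt.tendsto.mono_left nhdsWithin_le_nhds
    exact hh0 (tendsto_nhds_unique h4 h3)
  have h5 := hA.eqOn_zero_of_preconnected_of_eventuallyEq_zero isPreconnected_univ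
    (mem_univ (0 : ℂ)) hev
  intro z hz
  rw [← hGF z hz]
  exact h5 (mem_univ z)

end

private theorem ra_norm_e1 : ‖(fun _ => 1 : Fin d → ℂ)‖ ≤ 1 := by
  rw [pi_norm_le_iff_of_nonneg zero_le_one]
  intro i
  simp

private theorem ra_ne {z : ℂ} (hz : z ≠ 0) (w : Fin d → ℂ) : ((z, w) : E d) ≠ 0 := by
  intro h
  exact hz (congrArg Prod.fst h)

private theorem ra_diff {g : E d → E d} (hg : DifferentiableOn ℂ g {0}ᶜ) {x : E d} (hx : x ≠ 0) :
    DifferentiableAt ℂ g x :=
  (hg x hx).differentiableAt (isOpen_compl_singleton.mem_nhds hx)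

private theorem ra_pert {g : E d → E d} (hg : DifferentiableOn ℂ g {0}ᶜ)
    (hlim : Tendsto g (𝓝[≠] 0) (𝓝 0)) (τ : ℂ) (a : Fin d → ℂ) {j l : ℕ} (hj : 1 ≤ j)
    (hl : 1 ≤ l) :
    (fun z : ℂ => g (z, z ^ j • a + (τ * z ^ l) • (fun _ => 1)) - g (z, z ^ j • a))
      =O[𝓝[≠] (0 : ℂ)] fun z : ℂ => z ^ l := by
  obtain ⟨r, hr, hr2⟩ := (Metric.tendsto_nhdsWithin_nhds.1 hlim) 1 one_pos
  have hr3 : ∀ x : E d, x ≠ 0 → ‖x‖ < r → ‖g x‖ < 1 := by
    intro x hx hxr
    have := hr2 (x := x) hx (by rwa [dist_zero_right])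
    rwa [dist_zero_right] at this
  have e1 : ∀ᶠ z in 𝓝[≠] (0 : ℂ), ‖z‖ < r / 2 := by
    apply nhdsWithin_le_nhds
    have h1 : Tendsto (fun z : ℂ => ‖z‖) (𝓝 0) (𝓝 ‖(0 : ℂ)‖) := continuous_norm.tendsto 0
    rw [norm_zero] at h1
    exact h1.eventually (gt_mem_nhds (half_pos hr))
  have e2 : ∀ᶠ z in 𝓝[≠] (0 : ℂ), ‖z ^ j • a‖ < r / 2 := by
    apply nhdsWithin_le_nhds
    have h1 : Tendsto (fun z : ℂ => ‖z ^ j • a‖) (𝓝 0) (𝓝 ‖(0 : ℂ) ^ j • a‖) :=
      (by fun_prop : Continuous fun z : ℂ => ‖z ^ j • a‖).tendsto 0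
    rw [zero_pow (by omega), zero_smul, norm_zero] at h1
    exact h1.eventually (gt_mem_nhds (half_pos hr))
  have e3 : ∀ᶠ z in 𝓝[≠] (0 : ℂ), ‖τ * z ^ l‖ < r / 2 := by
    apply nhdsWithin_le_nhds
    have h1 : Tendsto (fun z : ℂ => ‖τ * z ^ l‖) (𝓝 0) (𝓝 ‖τ * (0 : ℂ) ^ l‖) :=
      (by fun_prop : Continuous fun z : ℂ => ‖τ * z ^ l‖).tendsto 0
    rw [zero_pow (by omega), mul_zero, norm_zero] at h1
    exact h1.eventually (gt_mem_nhds (half_pos hr))
  refine IsBigO.of_bound (2 / (r / 2) * ‖τ‖) ?_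
  filter_upwards [e1, e2, e3, self_mem_nhdsWithin] with z h1 h2 h3 hz
  have hz0 : z ≠ 0 := hz
  set f : ℂ → E d := fun s => g (z, z ^ j • a + s • (fun _ => 1)) with hf
  have hfd : DifferentiableOn ℂ f (Metric.ball 0 (r / 2)) := by
    intro s _
    have h4 : DifferentiableAt ℂ (fun s : ℂ => ((z, z ^ j • a + s • (fun _ => 1)) : E d)) s := by
      fun_prop
    exact ((ra_diff hg (ra_ne hz0 _)).comp s h4).differentiableWithinAt
  have hfb : ∀ s ∈ Metric.ball (0 : ℂ) (r / 2), ‖f s‖ < 1 := by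
    intro s hs
    rw [mem_ball_zero_iff] at hs
    apply hr3 _ (ra_ne hz0 _)
    rw [Prod.norm_def]
    refine max_lt (by show ‖z‖ < r; linarith) ?_
    show ‖z ^ j • a + s • (fun _ => 1)‖ < r
    refine (norm_add_le _ _).trans_lt ?_
    rw [norm_smul s]
    have h5 : ‖s‖ * ‖(fun _ => 1 : Fin d → ℂ)‖ ≤ ‖s‖ * 1 :=
      mul_le_mul_of_nonneg_left ra_norm_e1 (norm_nonneg s)
    linarith
  have hf0 : f 0 = g (z, z ^ j • a) := by
    simp only [hf, zero_smul, add_zero]
  have h0m : (0 : ℂ) ∈ Metric.ball (0 : ℂ) (r / 2) := Metric.mem_ball_self (half_pos hr)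
  have hmaps : MapsTo f (Metric.ball 0 (r / 2)) (Metric.closedBall (f 0) 2) := by
    intro s hs
    rw [Metric.mem_closedBall, dist_eq_norm]
    have h5 := hfb s hs
    have h6 := hfb 0 h0m
    have h7 := norm_sub_le (f s) (f 0)
    linarith
  have hmem : τ * z ^ l ∈ Metric.ball (0 : ℂ) (r / 2) := by
    rw [mem_ball_zero_iff]
    exact h3
  have h8 := Complex.dist_le_div_mul_dist_of_mapsTo_ball hfd hmaps hmem
  rw [dist_eq_norm, dist_zero_right, norm_mul, hf0] at h8
  calc ‖g (z, z ^ j • a + (τ * z ^ l) • (fun _ => 1)) - g (z, z ^ j • a)‖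
      ≤ 2 / (r / 2) * (‖τ‖ * ‖z ^ l‖) := h8
    _ = 2 / (r / 2) * ‖τ‖ * ‖z ^ l‖ := by ring

private theorem ra_smul {f g : ℂ → ℂ} {w : Fin d → ℂ} (h : f =O[𝓝[≠] (0 : ℂ)] g) :
    (fun z => f z • w) =O[𝓝[≠] (0 : ℂ)] g := by
  refine IsBigO.trans (IsBigO.of_bound ‖w‖ (Eventually.of_forall fun z => ?_)) h
  rw [norm_smul, mul_comm]

private theorem ra_tend (τ : ℂ) (a : Fin d → ℂ) {j l : ℕ} (hj : 1 ≤ j) (hl : 1 ≤ l) :
    Tendsto (fun z : ℂ => ((z, z ^ j • a + (τ * z ^ l) • (fun _ => 1)) : E d)) (𝓝[≠] 0)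
      (𝓝[≠] 0) := by
  refine tendsto_nhdsWithin_iff.2 ⟨?_, ?_⟩
  · have h1 : Tendsto (fun z : ℂ => ((z, z ^ j • a + (τ * z ^ l) • (fun _ => 1)) : E d)) (𝓝 0)
        (𝓝 (0, (0 : ℂ) ^ j • a + (τ * (0 : ℂ) ^ l) • (fun _ => 1))) :=
      (by fun_prop : Continuous fun z : ℂ =>
        ((z, z ^ j • a + (τ * z ^ l) • (fun _ => 1)) : E d)).tendsto 0
    rw [zero_pow (by omega), zero_pow (by omega), mul_zero, zero_smul, zero_smul, add_zero] at h1
    exact h1.mono_left nhdsWithin_le_nhds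
  · filter_upwards [self_mem_nhdsWithin] with z hz
    exact ra_ne hz _

theorem rigidA (hd : 0 < d) (hK : Dense (K : Set ℂ)) {g : E d → E d}
    (hg : DifferentiableOn ℂ g {0}ᶜ) (h0 : ∀ x, x ≠ 0 → g x ≠ 0)
    (hlim : Tendsto g (𝓝[≠] 0) (𝓝 0))
    (hb : ∀ i : Idx K d, (fun z : ℂ => (g (z, P τ i z)).2 - P τ i (g (z, P τ i z)).1)
      =O[𝓝[≠] (0 : ℂ)] fun z : ℂ => z ^ (i.l + 1)) :
    ∀ x, x ≠ 0 → g x = x := by
  -- the claim
  have claim : ∀ j : ℕ, (j = 2 ∨ j = 3) → ∀ a : Fin d → K, ∀ z : ℂ, z ≠ 0 →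
      (g (z, z ^ j • fun c => (a c : ℂ))).2 =
        (g (z, z ^ j • fun c => (a c : ℂ))).1 ^ j • fun c => (a c : ℂ) := by
    intro j hj a
    set a' : Fin d → ℂ := fun c => (a c : ℂ) with ha'
    have hj1 : 1 ≤ j := by omega
    have hdiffγ : ∀ z : ℂ, z ≠ 0 → DifferentiableAt ℂ (fun z : ℂ => g (z, z ^ j • a')) z := by
      intro z hz
      have h4 : DifferentiableAt ℂ (fun z : ℂ => ((z, z ^ j • a') : E d)) z := by fun_prop
      exact (ra_diff hg (ra_ne hz _)).comp z h4
    have key : ∀ z : ℂ, z ≠ 0 →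
        (fun z : ℂ => (g (z, z ^ j • a')).2 - (g (z, z ^ j • a')).1 ^ j • a') z = 0 := by
      refine ra_van (F := fun z : ℂ => (g (z, z ^ j • a')).2 - (g (z, z ^ j • a')).1 ^ j • a')
        (fun z hz => ?_) fun l hl => ?_
      · have h1 := (hdiffγ z hz).fst
        have h2 := (hdiffγ z hz).snd
        exact h2.sub ((h1.pow j).smul_const a')
      · have hl1 : 1 ≤ l := by omega
        let i : Idx K d :=
          { l := l
            two_le := by omega
            q := fun c => Polynomial.C (a c) * Polynomial.X ^ j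
            dvd := fun c => Dvd.dvd.mul_left (pow_dvd_pow _ (by omega)) _
            deg := fun c => (Polynomial.natDegree_C_mul_X_pow_le _ _).trans (by omega) }
        have hP : ∀ z : ℂ, P τ i z = z ^ j • a' + (τ * z ^ l) • (fun _ => 1) := by
          intro z
          funext c
          show Polynomial.aeval z (Polynomial.C (a c) * Polynomial.X ^ j) + τ * z ^ l = _
          rw [map_mul, map_pow, Polynomial.aeval_C, Polynomial.aeval_X]
          show (a c : ℂ) * z ^ j + τ * z ^ l = z ^ j * (a c : ℂ) + τ * z ^ l * 1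
          ring
        have hb' := hb i
        simp only [hP] at hb'
        have hb1 : (fun z : ℂ => (g (z, z ^ j • a' + (τ * z ^ l) • (fun _ => 1))).2 -
            ((g (z, z ^ j • a' + (τ * z ^ l) • (fun _ => 1))).1 ^ j • a' +
              (τ * (g (z, z ^ j • a' + (τ * z ^ l) • (fun _ => 1))).1 ^ l) • (fun _ => 1)))
            =O[𝓝[≠] (0 : ℂ)] fun z : ℂ => z ^ l := by
          refine hb'.trans ?_
          refine IsBigO.of_bound 1 ?_
          have e1 : ∀ᶠ z in 𝓝[≠] (0 : ℂ), ‖z‖ < 1 := by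
            apply nhdsWithin_le_nhds
            have h1 : Tendsto (fun z : ℂ => ‖z‖) (𝓝 0) (𝓝 ‖(0 : ℂ)‖) := continuous_norm.tendsto 0
            rw [norm_zero] at h1
            exact h1.eventually (gt_mem_nhds one_pos)
          filter_upwards [e1] with z hz
          show ‖z ^ (l + 1)‖ ≤ 1 * ‖z ^ l‖
          rw [pow_succ, norm_mul, one_mul]
          exact mul_le_of_le_one_right (norm_nonneg _) hz.le
        have hD := ra_pert hg hlim τ a' hj1 hl1
        have hD1 : (fun z : ℂ => (g (z, z ^ j • a' + (τ * z ^ l) • (fun _ => 1))).1 -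
            (g (z, z ^ j • a')).1) =O[𝓝[≠] (0 : ℂ)] fun z : ℂ => z ^ l :=
          IsBigO.trans (IsBigO.of_bound 1 (Eventually.of_forall fun z => by
            rw [one_mul]
            exact norm_fst_le (g (z, z ^ j • a' + (τ * z ^ l) • (fun _ => 1)) -
              g (z, z ^ j • a')))) hD
        have hD2 : (fun z : ℂ => (g (z, z ^ j • a' + (τ * z ^ l) • (fun _ => 1))).2 -
            (g (z, z ^ j • a')).2) =O[𝓝[≠] (0 : ℂ)] fun z : ℂ => z ^ l :=
          IsBigO.trans (IsBigO.of_bound 1 (Eventually.of_forall fun z => by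
            rw [one_mul]
            exact norm_snd_le (g (z, z ^ j • a' + (τ * z ^ l) • (fun _ => 1)) -
              g (z, z ^ j • a')))) hD
        have hu : (fun z : ℂ => (g (z, z ^ j • a' + (τ * z ^ l) • (fun _ => 1))).1)
            =O[𝓝[≠] (0 : ℂ)] fun z : ℂ => z := by
          refine ra_lin (fun z hz => ?_) ?_
          · have h4 : DifferentiableAt ℂ
                (fun z : ℂ => ((z, z ^ j • a' + (τ * z ^ l) • (fun _ => 1)) : E d)) z := by fun_prop
            exact ((ra_diff hg (ra_ne hz _)).comp z h4).fst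
          · have h5 := hlim.comp (ra_tend τ a' hj1 hl1)
            exact (continuous_fst.tendsto (0 : E d)).comp h5
        have hz1 : (fun z : ℂ => z) =O[𝓝[≠] (0 : ℂ)] fun _ : ℂ => (1 : ℂ) :=
          ((continuous_id.tendsto (0 : ℂ)).mono_left nhdsWithin_le_nhds).isBigO_one ℂ
        have hzl : (fun z : ℂ => z ^ l) =O[𝓝[≠] (0 : ℂ)] fun _ : ℂ => (1 : ℂ) :=
          (((continuous_pow l).tendsto (0 : ℂ)).mono_left nhdsWithin_le_nhds).isBigO_one ℂ
        set u : ℂ → ℂ := fun z : ℂ => (g (z, z ^ j • a' + (τ * z ^ l) • (fun _ => 1))).1 with hudef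
        set v : ℂ → ℂ := fun z : ℂ => (g (z, z ^ j • a')).1 with hvdef
        have hu1 : u =O[𝓝[≠] (0 : ℂ)] fun _ : ℂ => (1 : ℂ) := hu.trans hz1
        have hv1 : v =O[𝓝[≠] (0 : ℂ)] fun _ : ℂ => (1 : ℂ) := by
          have h1 := hu1.sub (hD1.trans hzl)
          refine h1.congr_left fun z => ?_
          show u z - (u z - v z) = v z
          ring
        have huv : (fun z => u z ^ j - v z ^ j) =O[𝓝[≠] (0 : ℂ)] fun z : ℂ => z ^ l := by
          rcases hj with rfl | rfl
          · have h1 := hD1.mul (hu1.add hv1)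
            refine (h1.congr_left fun z => ?_).congr_right fun z => mul_one _
            show (u z - v z) * (u z + v z) = _
            ring
          · have h0 : (fun z => u z ^ 2 + u z * v z + v z ^ 2) =O[𝓝[≠] (0 : ℂ)]
                fun _ : ℂ => (1 : ℂ) := by
              have h2 := hu1.mul hu1
              have h3 := hu1.mul hv1
              have h4 := hv1.mul hv1
              have h5 := (h2.add h3).add h4
              refine (h5.congr_left fun z => ?_).congr_right fun z => mul_one _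
              ring
            have h1 := hD1.mul h0
            refine (h1.congr_left fun z => ?_).congr_right fun z => mul_one _
            show (u z - v z) * (u z ^ 2 + u z * v z + v z ^ 2) = _
            ring
        have hul : (fun z => τ * u z ^ l) =O[𝓝[≠] (0 : ℂ)] fun z : ℂ => z ^ l :=
          (hu.pow l).const_mul_left τ
        have h1 := ((hb1.sub hD2).add (ra_smul (w := a') huv)).add
          (ra_smul (w := (fun _ => 1 : Fin d → ℂ)) hul)
        refine h1.congr_left fun z => ?_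
        show (g (z, z ^ j • a' + (τ * z ^ l) • (fun _ => 1))).2 -
            (u z ^ j • a' + (τ * u z ^ l) • (fun _ => 1)) -
            ((g (z, z ^ j • a' + (τ * z ^ l) • (fun _ => 1))).2 - (g (z, z ^ j • a')).2) +
            (u z ^ j - v z ^ j) • a' + (τ * u z ^ l) • (fun _ => 1) =
            (g (z, z ^ j • a')).2 - v z ^ j • a'
        rw [sub_smul]
        abel
    intro z hz
    exact sub_eq_zero.1 (key z hz)
  -- all vectors
  have claim2 : ∀ j : ℕ, (j = 2 ∨ j = 3) → ∀ z : ℂ, z ≠ 0 → ∀ w : Fin d → ℂ,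
      (g (z, w)).2 = ((g (z, w)).1 / z) ^ j • w := by
    intro j hj z hz w
    have hdense : Dense (Set.pi univ fun _ : Fin d => (K : Set ℂ)) :=
      dense_pi univ fun _ _ => hK
    have hcont : Continuous fun a : Fin d → ℂ => g (z, z ^ j • a) := by
      rw [continuous_iff_continuousAt]
      intro a
      have h4 : ContinuousAt (fun a : Fin d → ℂ => ((z, z ^ j • a) : E d)) a := by fun_prop
      exact ContinuousAt.comp (ra_diff hg (ra_ne hz _)).continuousAt h4
    have h1 := Continuous.ext_on hdense (f := fun a : Fin d → ℂ => (g (z, z ^ j • a)).2)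
      (g := fun a : Fin d → ℂ => (g (z, z ^ j • a)).1 ^ j • a)
      (continuous_snd.comp hcont) (((continuous_fst.comp hcont).pow j).smul continuous_id) (by
        intro a ha
        have h2 := claim j hj (fun c => ⟨a c, ha c (mem_univ c)⟩) z hz
        exact h2)
    have hzj : z ^ j ≠ 0 := pow_ne_zero j hz
    have h2 := congrFun h1 ((z ^ j)⁻¹ • w)
    simp only [smul_smul, mul_inv_cancel₀ hzj, one_smul] at h2
    rw [h2, div_pow, div_eq_mul_inv]
  have claim3 : ∀ z : ℂ, z ≠ 0 → ∀ w : Fin d → ℂ, w ≠ 0 → g (z, w) = (z, w) := by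
    intro z hz w hw
    have h2 := claim2 2 (Or.inl rfl) z hz w
    have h3 := claim2 3 (Or.inr rfl) z hz w
    obtain ⟨c, hc⟩ := Function.ne_iff.1 hw
    have hc' : w c ≠ 0 := hc
    set t := (g (z, w)).1 / z with ht
    have h4 : t ^ 2 = t ^ 3 := by
      have h5 := congrFun (h2.symm.trans h3) c
      have h6 : t ^ 2 * w c = t ^ 3 * w c := h5
      exact mul_right_cancel₀ hc' h6
    have h5 : t = 0 ∨ t = 1 := by
      have h6 : t ^ 2 * (t - 1) = 0 := by linear_combination -h4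
      rcases mul_eq_zero.1 h6 with h7 | h7
      · exact Or.inl (pow_eq_zero_iff (by norm_num) |>.1 h7)
      · exact Or.inr (sub_eq_zero.1 h7)
    have h6 : (g (z, w)).1 = t * z := by rw [ht, div_mul_cancel₀ _ hz]
    rcases h5 with h5 | h5
    · exfalso
      apply h0 _ (ra_ne hz w)
      refine Prod.ext ?_ ?_
      · rw [h6, h5, zero_mul]
        rfl
      · rw [h2, h5]
        simp
    · refine Prod.ext ?_ ?_
      · rw [h6, h5, one_mul]
      · rw [h2, h5]
        simp
  intro x hx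
  have hne : ∀ c : ℂ, ∀ᶠ s in 𝓝[≠] (0 : ℂ), s ≠ c := by
    intro c
    by_cases hc : c = 0
    · subst hc
      exact self_mem_nhdsWithin
    · exact nhdsWithin_le_nhds (isOpen_compl_singleton.mem_nhds (x := (0 : ℂ)) (Ne.symm hc))
  have hcurve : Tendsto (fun s : ℂ => x + s • ((1, fun _ => 1) : E d)) (𝓝[≠] 0) (𝓝 x) := by
    have h1 : Tendsto (fun s : ℂ => x + s • ((1, fun _ => 1) : E d)) (𝓝 0)
        (𝓝 (x + (0 : ℂ) • ((1, fun _ => 1) : E d))) :=
      (by fun_prop : Continuous fun s : ℂ => x + s • ((1, fun _ => 1) : E d)).tendsto 0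
    rw [zero_smul, add_zero] at h1
    exact h1.mono_left nhdsWithin_le_nhds
  have hl1 := (ra_diff hg hx).continuousAt.tendsto.comp hcurve
  refine tendsto_nhds_unique hl1 (hcurve.congr' ?_)
  filter_upwards [hne (-x.1), hne (-x.2 ⟨0, hd⟩)] with s hs1 hs2
  have h1 : x + s • ((1, fun _ => 1) : E d) = (x.1 + s, fun c => x.2 c + s) := by
    refine Prod.ext ?_ ?_
    · show x.1 + s * 1 = x.1 + s
      rw [mul_one]
    · funext c
      show x.2 c + s * 1 = x.2 c + s
      rw [mul_one]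
  show x + s • ((1, fun _ => 1) : E d) = g (x + s • ((1, fun _ => 1) : E d))
  rw [h1]
  refine (claim3 _ ?_ _ ?_).symm
  · intro h
    exact hs1 (by linear_combination h)
  · intro h
    have h2 := congrFun h ⟨0, hd⟩
    have h3 : x.2 ⟨0, hd⟩ + s = 0 := h2
    exact hs2 (by linear_combination h3)

end Pool.Agent.AH
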