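import Pool.Agent.AH.Inv
import Pool.Agent.AH.Conn
import Pool.Agent.AH.Haus
import Pool.Agent.AH.RigA

/-!
# AH-RigB: an automorphism which keeps each added copy of `ℂ^d` is the identity

PLAN.  `g x = pr (φ (J0 K τ x))`.  `g` is complex differentiable on `{0}ᶜ` (`contMDiffOn_J0`,
`contMDiff_pr`, `φ.contMDiff`), nonzero there (`map_reg`), tends to `0` at `0` (`tendsto_pr`).  For `i : Idx K d`
let `φ (Pt.new i 0) = Pt.new i v`.  `y z = φ (J τ i (z, 0))` is continuous in `z` and `y 0 = Pt.new i v`, which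
is in the open set `range (J τ i)`; so for `z` near `0` `y z = J τ i (Z, B)` with
`(Z, B) = Cf τ i (y z) → (0, v)` (`contMDiffOn_Cf` gives continuity of `Cf`).  For `z ≠ 0`
`J τ i (z, 0) = Pt.reg (z, P τ i z) _` so `y z` is regular (`map_reg`), so `Z ≠ 0` and
`g (z, P τ i z) = (Z, P τ i Z + Z ^ (i.l + 1) • B)` (`pr_J`); so
`(g ..).2 - P τ i (g ..).1 = Z ^ (i.l + 1) • B` with `B` bounded.  It remains to see `Z = O(z)`:
`z ↦ (g (z, P τ i z)).1` (value `0` at `0`) is continuous and differentiable off `0`, so entire and vanishing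
at `0`.  So `rigidA` applies: `g x = x` for `x ≠ 0`, i.e. `φ (Pt.reg x hx) = Pt.reg x hx` (`map_reg`), and
`φ = id` on the dense set `Om` (`dense_Om`), hence everywhere (`t2Space`, `Continuous.ext_on`).
-/

set_option autoImplicit false

open Set Topology Filter
open scoped Manifold ContDiff

namespace Pool.Agent.AH

variable {K : Subfield ℂ} {τ : ℂ} {d : ℕ}

private theorem bigO_aux (hd : 0 < d) (φ : Aut K τ d) (i : Idx K d) {v : Fin d → ℂ}
    (hv : φ (Pt.new i 0) = Pt.new i v) :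
    (fun z : ℂ => (pr (φ (J0 K τ (z, P τ i z)))).2 -
      P τ i (pr (φ (J0 K τ (z, P τ i z)))).1) =O[𝓝[≠] (0 : ℂ)] fun z : ℂ => z ^ (i.l + 1) := by
  have hJ : ContMDiff 𝓘(ℂ, ℂ) 𝓘(ℂ, E d) (⊤ : WithTop ℕ∞)
      (fun z : ℂ => φ (J τ i (z, 0))) := by
    refine φ.contMDiff.comp ((contMDiff_J i).comp ?_)
    exact (contDiff_id.prodMk contDiff_const).contMDiff
  have hy0 : φ (J τ i ((0 : ℂ), 0)) = Pt.new i v := by
    rw [J_zero, hv]
  have hopen : IsOpen (range (J τ i)) := (isOpenEmbedding_J i).isOpen_range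
  have hmem : φ (J τ i ((0 : ℂ), 0)) ∈ range (J τ i) := by
    rw [hy0]
    exact (mem_range_J_new τ i i v).2 rfl
  have hev : ∀ᶠ z : ℂ in 𝓝 0, φ (J τ i (z, 0)) ∈ range (J τ i) :=
    hJ.continuous.continuousAt.eventually_mem (hopen.mem_nhds hmem)
  have hC : ContMDiffAt 𝓘(ℂ, ℂ) 𝓘(ℂ, E d) (⊤ : WithTop ℕ∞)
      (fun z : ℂ => Cf τ i (φ (J τ i (z, 0)))) 0 :=
    ((contMDiffOn_Cf i).contMDiffAt (hopen.mem_nhds hmem)).comp (0 : ℂ) hJ.contMDiffAt
  have hC' : DifferentiableAt ℂ (fun z : ℂ => Cf τ i (φ (J τ i (z, 0)))) 0 :=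
    hC.contDiffAt.differentiableAt (by simp)
  have hC0 : Cf τ i (φ (J τ i ((0 : ℂ), 0))) = (0, v) := by
    rw [hy0]
    rfl
  have hO1 : (fun z : ℂ => (Cf τ i (φ (J τ i (z, 0)))).1) =O[𝓝 (0 : ℂ)] fun z : ℂ => z := by
    have h1 : DifferentiableAt ℂ (fun z : ℂ => (Cf τ i (φ (J τ i (z, 0)))).1) 0 := hC'.fst
    have h2 := h1.isBigO_sub
    simp only [hC0, sub_zero] at h2
    exact h2
  have hO2 : (fun z : ℂ => (Cf τ i (φ (J τ i (z, 0)))).2) =O[𝓝 (0 : ℂ)] fun _ : ℂ => (1 : ℂ) := by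
    have h1 : ContinuousAt (fun z : ℂ => (Cf τ i (φ (J τ i (z, 0)))).2) 0 := hC'.snd.continuousAt
    exact h1.norm.isBoundedUnder_le.isBigO_one ℂ
  have hO3 : (fun z : ℂ => (Cf τ i (φ (J τ i (z, 0)))).1 ^ (i.l + 1) •
      (Cf τ i (φ (J τ i (z, 0)))).2) =O[𝓝 (0 : ℂ)] fun z : ℂ => z ^ (i.l + 1) := by
    have := (hO1.pow (i.l + 1)).smul hO2
    simpa only [smul_eq_mul, mul_one] using this
  refine (hO3.mono nhdsWithin_le_nhds).congr' ?_ EventuallyEq.rfl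
  filter_upwards [nhdsWithin_le_nhds hev, self_mem_nhdsWithin] with z hz hz0
  have hz0' : z ≠ 0 := hz0
  have hne : ((z, P τ i z) : E d) ≠ 0 := jet_ne_zero (x := ((z, 0) : E d)) hz0' _
  have e1 : J τ i ((z, 0) : E d) = J0 K τ (z, P τ i z) := by
    rw [J_ne τ i (x := ((z, 0) : E d)) hz0', J0_ne τ hne]
    simp
  obtain ⟨Y, hY, eY⟩ := map_reg hd φ _ hne
  have e2 : φ (J τ i (z, 0)) = Pt.reg Y hY := by
    rw [e1, J0_ne τ hne, eY]
  have hY1 : Y.1 ≠ 0 := by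
    rw [e2] at hz
    exact (mem_range_J_reg τ i hY).1 hz
  have e3 : (Cf τ i (φ (J τ i (z, 0)))).1 ≠ 0 := by
    rw [e2]
    exact hY1
  have e4 : J τ i (Cf τ i (φ (J τ i (z, 0)))) = φ (J τ i (z, 0)) := by
    obtain ⟨w, hw⟩ := hz
    rw [← hw, Cf_J]
  have e5 : pr (φ (J0 K τ (z, P τ i z))) = ((Cf τ i (φ (J τ i (z, 0)))).1,
      P τ i (Cf τ i (φ (J τ i (z, 0)))).1 + (Cf τ i (φ (J τ i (z, 0)))).1 ^ (i.l + 1) •
        (Cf τ i (φ (J τ i (z, 0)))).2) := by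
    rw [← e1, ← pr_J τ i e3, e4]
  rw [e5]
  simp only [add_sub_cancel_left]

theorem rigidB (hd : 0 < d) (hK : Dense (K : Set ℂ)) (hτ : τ ∉ K) (φ : Aut K τ d)
    (h : ∀ i : Idx K d, ∃ v, φ (Pt.new i 0) = Pt.new i v) : ∀ p, φ p = p := by
  have hreg : ∀ x : E d, x ≠ 0 → pr (φ (J0 K τ x)) = x := by
    apply rigidA (K := K) (τ := τ) hd hK (g := fun x => pr (φ (J0 K τ x)))
    · have h1 : ContMDiffOn 𝓘(ℂ, E d) 𝓘(ℂ, E d) (⊤ : WithTop ℕ∞)
          (fun x => pr (φ (J0 K τ x))) {0}ᶜ :=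
        contMDiff_pr.comp_contMDiffOn (φ.contMDiff.comp_contMDiffOn contMDiffOn_J0)
      exact (contMDiffOn_iff_contDiffOn.1 h1).differentiableOn (by simp)
    · intro x hx
      obtain ⟨y, hy, e⟩ := map_reg hd φ x hx
      rw [J0_ne τ hx, e]
      exact hy
    · exact tendsto_pr hd φ
    · intro i
      obtain ⟨v, hv⟩ := h i
      exact bigO_aux hd φ i hv
  have : T2Space (Pt K τ d) := t2Space hd hτ
  have e : (fun p => φ p) = fun p => p := by
    apply Continuous.ext_on dense_Om φ.continuous continuous_id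
    intro q hq
    obtain ⟨x, hx, rfl⟩ := (mem_Om_iff q).1 hq
    obtain ⟨y, hy, e⟩ := map_reg hd φ x hx
    have h1 := hreg x hx
    rw [J0_ne τ hx, e] at h1
    have h2 : y = x := h1
    subst h2
    exact e
  exact fun p => congrFun e p

end Pool.Agent.AH
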