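import Pool.Agent.AH.Defs

/-!
# AH-Stmt: the statement, in named pieces
-/

set_option autoImplicit false

open Set Topology
open scoped Manifold

namespace Pool.Agent.AH

/-- the automorphisms of a complex manifold `X` modelled on `ℂ × ℂ^d` -/
abbrev AutM (d : ℕ) (X : Type) [TopologicalSpace X] [ChartedSpace (E d) X] : Type :=
  Diffeomorph 𝓘(ℂ, E d) 𝓘(ℂ, E d) X X (⊤ : WithTop ℕ∞)

/-- `Aut X` as a subspace of `C(X, X)` (compact-open topology) -/
def autSet (d : ℕ) (X : Type) [TopologicalSpace X] [ChartedSpace (E d) X] : Set C(X, X) :=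
  {f | ∃ ψ : AutM d X, f = ContinuousMap.mk ψ ψ.continuous}

/-- the complement of `Ω` is a smooth hypersurface: around each of its points there is a chart of the
atlas, onto the whole model space, in which it is `{z = 0}` -/
def HypersurfaceCompl (d : ℕ) (X : Type) [TopologicalSpace X] [ChartedSpace (E d) X]
    (Ω : Set X) : Prop :=
  ∀ p, p ∉ Ω → ∃ e ∈ atlas (E d) X, p ∈ e.source ∧ e.target = univ ∧
    ∀ q ∈ e.source, q ∈ Ω ↔ (e q).1 ≠ 0

/-- a chart of the atlas identifies `Ω` with the model space minus the origin -/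
def IsPuncturedSpace (d : ℕ) (X : Type) [TopologicalSpace X] [ChartedSpace (E d) X]
    (Ω : Set X) : Prop :=
  ∃ e ∈ atlas (E d) X, e.source = Ω ∧ e.target = {0}ᶜ

/-- every automorphism maps `Ω` onto `Ω` -/
def AutInvariant (d : ℕ) (X : Type) [TopologicalSpace X] [ChartedSpace (E d) X]
    (Ω : Set X) : Prop :=
  ∀ φ : AutM d X, φ '' Ω = Ω

/-- for every `k`, any `k` distinct points of `Ω` are sent to any other `k` distinct points of `Ω` by an
automorphism -/
def AutInfTransitive (d : ℕ) (X : Type) [TopologicalSpace X] [ChartedSpace (E d) X]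
    (Ω : Set X) : Prop :=
  ∀ (k : ℕ) (x y : Fin k → X), Function.Injective x → Function.Injective y →
    (∀ i, x i ∈ Ω) → (∀ i, y i ∈ Ω) → ∃ φ : AutM d X, ∀ i, φ (x i) = y i

end Pool.Agent.AH
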